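import Mathlib

/-!
# AD G Char: multiplicative functions on `GL_d`

`φ` is `1` on transvections: `t(2 a) = t(a)²` and `t(2 a) = D t(a) D⁻¹` with a diagonal matrix `D`, so `φ(t)² = φ(t) ≠ 0`.  `φ (diagonal (c at the place i, 1 elsewhere)) = χ(c)` does not depend on `i` (conjugate by a
permutation matrix), so `φ (diagonal D) = ∏ χ (D i)` and `φ A = χ (det A)` for all invertible `A` (`Matrix.diagonal_transvection_induction_of_det_ne_zero`), `χ c ^ d = φ (c • 1) = c ^ s`.
(`d = 0` is trivial.)
-/

set_option autoImplicit false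

open Matrix

namespace Pool.Agent.AD.G

namespace Chr

variable {K : Type*} [Field K] {d : ℕ} {φ : Matrix (Fin d) (Fin d) K → K}

/-- the diagonal matrix with `c` at the place `i` -/
def dg (i : Fin d) (c : K) : Matrix (Fin d) (Fin d) K := diagonal (Function.update 1 i c)

theorem det_dg (i : Fin d) (c : K) : (dg i c).det = c := by
  rw [dg, det_diagonal, Finset.prod_update_of_mem (Finset.mem_univ i)]
  simp

theorem phi_ne (hmul : ∀ A B : Matrix (Fin d) (Fin d) K, A.det ≠ 0 → B.det ≠ 0 → φ (A * B) = φ A * φ B) (h1 : φ 1 = 1)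
    {A : Matrix (Fin d) (Fin d) K} (hA : A.det ≠ 0) : φ A ≠ 0 := by
  intro h
  have hu : IsUnit A.det := isUnit_iff_ne_zero.mpr hA
  have hB : (A⁻¹).det ≠ 0 := by
    rw [det_nonsing_inv]
    exact (Ring.inverse_eq_inv' (G₀ := K)).symm ▸ inv_ne_zero hA
  have := hmul A A⁻¹ hA hB
  rw [mul_nonsing_inv _ hu, h1, h, zero_mul] at this
  exact one_ne_zero this

theorem phi_comm (hmul : ∀ A B : Matrix (Fin d) (Fin d) K, A.det ≠ 0 → B.det ≠ 0 → φ (A * B) = φ A * φ B) (h1 : φ 1 = 1)
    {A B P : Matrix (Fin d) (Fin d) K} (hA : A.det ≠ 0) (hB : B.det ≠ 0) (hP : P.det ≠ 0) (h : P * A = B * P) : φ A = φ B := by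
  have e := congrArg φ h
  rw [hmul _ _ hP hA, hmul _ _ hB hP, mul_comm (φ B)] at e
  exact mul_left_cancel₀ (phi_ne hmul h1 hP) e

theorem phi_transvection [CharZero K] (hmul : ∀ A B : Matrix (Fin d) (Fin d) K, A.det ≠ 0 → B.det ≠ 0 → φ (A * B) = φ A * φ B) (h1 : φ 1 = 1)
    {i j : Fin d} (hij : i ≠ j) (a : K) : φ (transvection i j a) = 1 := by
  have hd : ∀ b : K, (transvection i j b).det ≠ 0 := fun b => by
    rw [det_transvection_of_ne _ _ hij]; exact one_ne_zero
  have h2 : φ (transvection i j (a + a)) = φ (transvection i j a) * φ (transvection i j a) := by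
    rw [← transvection_mul_transvection_same _ _ hij, hmul _ _ (hd a) (hd a)]
  have h3 : φ (transvection i j a) = φ (transvection i j (a + a)) := by
    refine phi_comm hmul h1 (hd _) (hd _) (P := dg i 2) (by rw [det_dg]; exact two_ne_zero) ?_
    ext x y
    simp only [dg, diagonal_mul, mul_diagonal, transvection, Matrix.add_apply, Matrix.one_apply, Matrix.single_apply, Function.update_apply, Pi.one_apply]
    by_cases hx : x = i
    · subst hx
      by_cases hy : y = j
      · subst hy
        have : ¬ x = y := hij
        have h' : ¬ y = x := fun h => hij h.symm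
        simp [this, h']
        ring
      · by_cases hxy : x = y
        · subst hxy
          simp [hy, Ne.symm hij]
        · have : ¬ j = y := fun h => hy h.symm
          simp [hxy, this]
    · have : ¬ i = x := fun h => hx h.symm
      by_cases hxy : x = y
      · subst hxy
        simp [hx, this]
      · simp [hxy, this]
  rw [← h3] at h2
  have hn := phi_ne hmul h1 (hd a)
  exact (mul_left_cancel₀ hn (by rw [mul_one]; exact h2)).symm

theorem phi_dg (hmul : ∀ A B : Matrix (Fin d) (Fin d) K, A.det ≠ 0 → B.det ≠ 0 → φ (A * B) = φ A * φ B) (h1 : φ 1 = 1)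
    (i j : Fin d) {c : K} (hc : c ≠ 0) : φ (dg i c) = φ (dg j c) := by
  by_cases hij : i = j
  · rw [hij]
  · have hs : (swap K i j).det ≠ 0 := by
      intro h
      have := congrArg Matrix.det (swap_mul_self (R := K) i j)
      rw [det_mul, h, zero_mul, det_one] at this
      exact zero_ne_one this
    refine phi_comm hmul h1 (by rw [det_dg]; exact hc) (by rw [det_dg]; exact hc) hs ?_
    ext x y
    rw [dg, dg, mul_diagonal, diagonal_mul]
    by_cases hx : x = i
    · subst hx
      have e : (swap K x j) x y = (1 : Matrix (Fin d) (Fin d) K) j y := by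
        rw [← Matrix.mul_one (swap K x j), swap_mul_apply_left]
      rw [e, Matrix.one_apply]
      by_cases hy : j = y
      · subst hy
        have : ¬ j = x := fun h => hij h.symm
        simp [Function.update_apply, this, hij]
      · simp [hy]
    · by_cases hx' : x = j
      · subst hx'
        have e : (swap K i x) x y = (1 : Matrix (Fin d) (Fin d) K) i y := by
          rw [← Matrix.mul_one (swap K i x), swap_mul_apply_right]
        rw [e, Matrix.one_apply]
        by_cases hy : i = y
        · subst hy
          simp [Function.update_apply]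
        · simp [hy]
      · have e : (swap K i j) x y = (1 : Matrix (Fin d) (Fin d) K) x y := by
          rw [← Matrix.mul_one (swap K i j), swap_mul_of_ne hx hx']
        rw [e, Matrix.one_apply]
        by_cases hy : x = y
        · subst hy
          simp [Function.update_apply, hx, hx']
        · simp [hy]

theorem phi_diagonal (hmul : ∀ A B : Matrix (Fin d) (Fin d) K, A.det ≠ 0 → B.det ≠ 0 → φ (A * B) = φ A * φ B) (h1 : φ 1 = 1)
    (D : Fin d → K) (hD : ∀ i, D i ≠ 0) (s : Finset (Fin d)) :
    φ (diagonal (fun i => if i ∈ s then D i else 1)) = ∏ i ∈ s, φ (dg i (D i)) := by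
  classical
  induction s using Finset.induction_on with
  | empty => simpa using h1
  | insert a s ha ih =>
    have e : (diagonal (fun i => if i ∈ insert a s then D i else 1) : Matrix (Fin d) (Fin d) K) =
        dg a (D a) * diagonal (fun i => if i ∈ s then D i else 1) := by
      rw [dg, diagonal_mul_diagonal]
      congr 1
      funext i
      by_cases hi : i = a
      · subst hi
        simp [ha]
      · simp [Finset.mem_insert, hi]
    have hd : (diagonal (fun i => if i ∈ s then D i else 1) : Matrix (Fin d) (Fin d) K).det ≠ 0 := by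
      rw [det_diagonal]
      refine Finset.prod_ne_zero_iff.mpr fun i _ => ?_
      by_cases hi : i ∈ s
      · simpa [hi] using hD i
      · simp [hi]
    rw [e, hmul _ _ (by rw [det_dg]; exact hD a) hd, ih, Finset.prod_insert ha]

end Chr

open Chr in
theorem char_pow {K : Type*} [Field K] [CharZero K] {d s : ℕ} (φ : Matrix (Fin d) (Fin d) K → K)
    (hmul : ∀ A B : Matrix (Fin d) (Fin d) K, A.det ≠ 0 → B.det ≠ 0 → φ (A * B) = φ A * φ B) (h1 : φ 1 = 1)
    (hs : ∀ c : K, c ≠ 0 → φ (c • (1 : Matrix (Fin d) (Fin d) K)) = c ^ s) {A : Matrix (Fin d) (Fin d) K} (hA : A.det ≠ 0) :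
    φ A ^ d = A.det ^ s := by
  refine diagonal_transvection_induction_of_det_ne_zero (fun A : Matrix (Fin d) (Fin d) K => φ A ^ d = A.det ^ s) A hA ?_ ?_ ?_
  · intro D hD
    have hD' : ∀ i, D i ≠ 0 := by
      rw [det_diagonal] at hD
      exact fun i => (Finset.prod_ne_zero_iff.mp hD) i (Finset.mem_univ i)
    have e := phi_diagonal hmul h1 D hD' Finset.univ
    simp only [Finset.mem_univ, if_true] at e
    have hc : ∀ (i : Fin d) (c : K), c ≠ 0 → φ (dg i c) ^ d = c ^ s := by
      intro i c hc
      have e' := phi_diagonal hmul h1 (fun _ => c) (fun _ => hc) Finset.univ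
      simp only [Finset.mem_univ, if_true] at e'
      have e'' : (diagonal (fun _ => c) : Matrix (Fin d) (Fin d) K) = c • 1 := by
        rw [smul_one_eq_diagonal]
      rw [e'', hs c hc] at e'
      rw [e', Finset.prod_congr rfl (fun j _ => phi_dg hmul h1 j i hc), Finset.prod_const, Finset.card_univ, Fintype.card_fin]
    show φ (diagonal D) ^ d = (diagonal D).det ^ s
    have e3 : φ (diagonal D) = ∏ i, φ (dg i (D i)) := e
    rw [e3, det_diagonal, ← Finset.prod_pow, ← Finset.prod_pow]
    exact Finset.prod_congr rfl fun i _ => hc i (D i) (hD' i)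
  · intro t
    obtain ⟨i, j, hij, c⟩ := t
    show φ (transvection i j c) ^ d = (transvection i j c).det ^ s
    rw [phi_transvection hmul h1 hij, det_transvection_of_ne _ _ hij, one_pow, one_pow]
  · intro A B hA hB ha hb
    show φ (A * B) ^ d = (A * B).det ^ s
    rw [hmul A B hA hB, mul_pow, ha, hb, det_mul, mul_pow]

end Pool.Agent.AD.G
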