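import Pool.Agent.H13.SM.Surf

/-!
# AD G Defs: algebraic sections of `S^(m,m) Ω_X (-1)`

`P` is a homogeneous prime ideal, `X` the projective variety given by it, `cone P` its affine cone without the vertex and `conTan P x` the tangent space of
the cone at `x` (so `T_x X = conTan P x / ℂ x`).  An element of the fibre of `S^(m,m) Ω_X` at `x` is a function of two tangent vectors `v`, `w` which is a
homogeneous polynomial of degree `m` in the `2 × 2` minors of `(v, w)`.
-/

set_option autoImplicit false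

open MvPolynomial
open Pool.Agent.H13.SM (conTan cone)

noncomputable section

namespace Pool.Agent.AD.G

variable {N : ℕ}

/-- the `2 × 2` minors of the pair `v`, `w` -/
def pl {ι R : Type*} [CommRing R] (v w : ι → R) (p : ι × ι) : R := v p.1 * w p.2 - v p.2 * w p.1

/-- A section of `S^(m,m) Ω_X (-1)`, where `X` is the projective variety of `P`: a function of a point `x` of the cone and two tangent vectors `v`, `w` of
the cone, which is given, up to powers of `x i`, by a polynomial in `x` and the minors of `(v, w)`, homogeneous of degree `m` in the minors, and which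
descends to `X`. -/
structure BSec (P : Ideal (MvPolynomial (Fin (N + 1)) ℂ)) (m : ℕ) where
  /-- the section -/
  toFun : (Fin (N + 1) → ℂ) → (Fin (N + 1) → ℂ) → (Fin (N + 1) → ℂ) → ℂ
  regular : ∀ i, ∃ (e : ℕ) (A : MvPolynomial (Fin (N + 1) × Fin (N + 1)) (MvPolynomial (Fin (N + 1)) ℂ)), A.IsHomogeneous m ∧
    ∀ x ∈ cone P, ∀ v ∈ conTan P x, ∀ w ∈ conTan P x, x i ^ e * toFun x v w = eval (pl v w) (map (eval x) A)
  add_smul : ∀ x ∈ cone P, ∀ v ∈ conTan P x, ∀ w ∈ conTan P x, ∀ a b : ℂ, toFun x (v + a • x) (w + b • x) = toFun x v w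
  scale : ∀ x ∈ cone P, ∀ v ∈ conTan P x, ∀ w ∈ conTan P x, ∀ c : ℂ, c ≠ 0 → c * toFun (c • x) (c • v) (c • w) = toFun x v w

/-- The sections `Ω k` generate `S^(m,m) Ω_X (-1)`: at every point the products of `m` two-forms `ℓ ∧ ℓ'` are linear combinations of the `Ω k`. -/
def Generates {P : Ideal (MvPolynomial (Fin (N + 1)) ℂ)} {m J : ℕ} (Ω : Fin J → BSec P m) : Prop :=
  ∀ x ∈ cone P, ∀ l l' : Fin m → Module.Dual ℂ (Fin (N + 1) → ℂ), (∀ s, l s x = 0 ∧ l' s x = 0) →
    ∃ c : Fin J → ℂ, ∀ v ∈ conTan P x, ∀ w ∈ conTan P x, ∏ s, (l s v * l' s w - l s w * l' s v) = ∑ k, c k * (Ω k).toFun x v w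

end Pool.Agent.AD.G
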