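import Pool.Agent.AD.G.Defs
import Pool.Agent.AD.G.Char

/-!
# AD G W: the space of the polynomials of degree `m` in the minors

`WK K d m` = the span of the products of `m` minors, as functions of `(v, w)`, `v, w ∈ K^d`.  It has finite dimension, `G` acts on it by `(v, w) ↦ (G v, G w)` (the minors of `(G v, G w)` are linear combinations of the minors of
`(v, w)` with coefficients `G a c G b e - G a e G b c`).

`exists_points`: evaluation points with complex coordinates: a function in `WK` is a polynomial function; if it vanishes for all complex `v`, `w`, it is zero (`MvPolynomial.funext_set`, the set `ℂ ⊆ K` is infinite).  So the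
evaluations at complex points span the dual of `WK`; take a basis among them.

`det_eval`: `E : WK ≃ (Fin r → K)` the evaluation at the points; `φ G = LinearMap.det (act G)`; `char_pow` with `s = 2 m r` (`act (c • 1) = c^(2m) • 1`).  For `F : Fin r → WK`: the matrix `(F s (G p_k))` is the matrix of
`E (act G (F s))`; its determinant is `φ G` times the determinant of `E (F s)`.
-/

set_option autoImplicit false
set_option linter.unusedSectionVars false

open MvPolynomial

noncomputable section

namespace Pool.Agent.AD.G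

section aux

variable {K : Type*} [Field K] {m : ℕ}

theorem prod_pow_mem {σ A : Type*} [CommRing A] [Algebra K A] {S : Submodule K A} {g : σ → A} (hg : ∀ i, g i ∈ S) (e : σ →₀ ℕ) :
    (e.prod fun i k => g i ^ k) ∈ S ^ e.degree := by
  classical
  rw [Finsupp.degree_apply, Finsupp.prod]
  induction e.support using Finset.induction_on with
  | empty => simpa using ⟨1, map_one _⟩
  | insert a s ha ih =>
    rw [Finset.prod_insert ha, Finset.sum_insert ha, pow_add]
    exact Submodule.mul_mem_mul (Submodule.pow_mem_pow _ (hg a) _) ih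

theorem aeval_mem_pow {σ A : Type*} [CommRing A] [Algebra K A] {S : Submodule K A} {g : σ → A} (hg : ∀ i, g i ∈ S) {Q : MvPolynomial σ K}
    (hQ : Q.IsHomogeneous m) : aeval g Q ∈ S ^ m := by
  rw [Q.as_sum, map_sum]
  refine Submodule.sum_mem _ fun e he => ?_
  rw [aeval_monomial]
  have h1 : e.degree = m := by
    rw [Finsupp.degree_eq_weight_one]
    exact hQ (mem_support_iff.1 he)
  rw [← Algebra.smul_def]
  exact Submodule.smul_mem _ _ (h1 ▸ prod_pow_mem hg e)

end aux

variable (K : Type) [Field K] [Algebra ℂ K] (d m : ℕ)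

/-- the span of the products of `m` minors -/
def WK : Submodule K ((Fin d → K) × (Fin d → K) → K) :=
  Submodule.span K (Set.range fun (c : Fin m → Fin d × Fin d) (p : (Fin d → K) × (Fin d → K)) => ∏ s, pl p.1 p.2 (c s))

instance : Module.Finite K (WK K d m) :=
  Module.Finite.span_of_finite K (Set.finite_range _)

/-- the span of the minors -/
def W1 : Submodule K ((Fin d → K) × (Fin d → K) → K) :=
  Submodule.span K (Set.range fun (c : Fin d × Fin d) (p : (Fin d → K) × (Fin d → K)) => pl p.1 p.2 c)

theorem WK_eq_pow : WK K d m = W1 K d ^ m := by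
  unfold WK W1
  rw [Submodule.span_pow]
  congr 1
  ext F
  rw [Set.mem_pow]
  constructor
  · rintro ⟨c, rfl⟩
    refine ⟨fun s => ⟨fun p => pl p.1 p.2 (c s), c s, rfl⟩, ?_⟩
    rw [List.prod_ofFn]
    ext p
    simp [Finset.prod_apply]
  · rintro ⟨f, rfl⟩
    choose c hc using fun s => (f s).2
    refine ⟨c, ?_⟩
    rw [List.prod_ofFn]
    ext p
    simp only [Finset.prod_apply]
    exact Finset.prod_congr rfl fun s _ => congrFun (hc s) p

variable {K d m}

/-- homogeneous polynomials of degree `m` in the minors of `(τ v, τ w)` are in `WK` -/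
theorem mem_WK {n : Type} [Fintype n] (τ : n → Fin d → K) {A : MvPolynomial (n × n) K} (hA : A.IsHomogeneous m) :
    (fun p : (Fin d → K) × (Fin d → K) => eval (pl (fun i => ∑ a, τ i a * p.1 a) (fun i => ∑ a, τ i a * p.2 a)) A) ∈ WK K d m := by
  rw [WK_eq_pow]
  set g : n × n → (Fin d → K) × (Fin d → K) → K := fun c p => pl (fun i => ∑ a, τ i a * p.1 a) (fun i => ∑ a, τ i a * p.2 a) c with hgdef
  have hg : ∀ c, g c ∈ W1 K d := by
    rintro ⟨i, j⟩
    have h : g (i, j) = ∑ a, ∑ b, (τ i a * τ j b) • fun p : (Fin d → K) × (Fin d → K) => pl p.1 p.2 (a, b) := by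
      ext p
      simp only [hgdef, pl, Finset.sum_apply, Pi.smul_apply, smul_eq_mul, Finset.sum_mul_sum]
      have h2 : ∑ x, ∑ y, τ i x * p.1 x * (τ j y * p.2 y) - ∑ x, ∑ y, τ j x * p.1 x * (τ i y * p.2 y) =
        ∑ x, ∑ y, τ i x * τ j y * (p.1 x * p.2 y - p.1 y * p.2 x) := by
        rw [Finset.sum_comm (f := fun x y => τ j x * p.1 x * (τ i y * p.2 y)), ← Finset.sum_sub_distrib]
        refine Finset.sum_congr rfl fun x _ => ?_
        rw [← Finset.sum_sub_distrib]
        exact Finset.sum_congr rfl fun y _ => by ring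
      rw [← h2]
    rw [h]
    exact Submodule.sum_mem _ fun a _ => Submodule.sum_mem _ fun b _ => Submodule.smul_mem _ _ (Submodule.subset_span ⟨(a, b), rfl⟩)
  have h := aeval_mem_pow hg hA
  convert h using 1
  ext p
  have h3 : (Pi.evalAlgHom K (fun _ : (Fin d → K) × (Fin d → K) => K) p) (aeval g A) = aeval (fun c => g c p) A := by
    rw [← AlgHom.comp_apply, comp_aeval]
    rfl
  calc eval (pl (fun i => ∑ a, τ i a * p.1 a) (fun i => ∑ a, τ i a * p.2 a)) A = aeval (fun c => g c p) A := by
        rw [aeval_eq_eval]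
    _ = _ := h3.symm

/-- the elements of `WK` are polynomial functions -/
theorem exists_poly {F : (Fin d → K) × (Fin d → K) → K} (hF : F ∈ WK K d m) :
    ∃ Q : MvPolynomial (Fin d ⊕ Fin d) K, ∀ p, F p = eval (Sum.elim p.1 p.2) Q := by
  unfold WK at hF
  induction hF using Submodule.span_induction with
  | mem F hF =>
    obtain ⟨c, rfl⟩ := hF
    refine ⟨∏ s, (X (Sum.inl (c s).1) * X (Sum.inr (c s).2) - X (Sum.inl (c s).2) * X (Sum.inr (c s).1)), fun p => ?_⟩
    simp [map_prod, pl]
  | zero => exact ⟨0, fun p => by simp⟩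
  | add F G _ _ hF hG =>
    obtain ⟨Q, hQ⟩ := hF
    obtain ⟨R, hR⟩ := hG
    exact ⟨Q + R, fun p => by rw [Pi.add_apply, hQ, hR, map_add]⟩
  | smul c F _ hF =>
    obtain ⟨Q, hQ⟩ := hF
    exact ⟨C c * Q, fun p => by rw [Pi.smul_apply, hQ, map_mul, eval_C, smul_eq_mul]⟩

theorem eq_zero_of_complex {F : (Fin d → K) × (Fin d → K) → K} (hF : F ∈ WK K d m)
    (h : ∀ v w : Fin d → ℂ, F (fun a => algebraMap ℂ K (v a), fun a => algebraMap ℂ K (w a)) = 0) : F = 0 := by
  obtain ⟨Q, hQ⟩ := exists_poly hF
  have h0 : Q = 0 := by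
    refine funext_set (fun _ => Set.range (algebraMap ℂ K)) (fun _ => ?_) fun x hx => ?_
    · exact Set.infinite_range_of_injective (algebraMap ℂ K).injective
    · rw [map_zero]
      choose y hy using fun i => hx i (Set.mem_univ i)
      have h1 := h (fun a => y (Sum.inl a)) (fun a => y (Sum.inr a))
      rw [hQ] at h1
      rw [← h1]
      congr 1
      congr 1
      ext i
      rcases i with i | i
      · simp [hy]
      · simp [hy]
  ext p
  rw [hQ, h0, map_zero, Pi.zero_apply]

/-- evaluation points -/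
theorem exists_points : ∃ (p : Fin (Module.finrank K (WK K d m)) → (Fin d → ℂ) × (Fin d → ℂ)),
    ∀ F ∈ WK K d m, (∀ k, F (fun a => algebraMap ℂ K ((p k).1 a), fun a => algebraMap ℂ K ((p k).2 a)) = 0) → F = 0 := by
  classical
  set ev : (Fin d → ℂ) × (Fin d → ℂ) → Module.Dual K (WK K d m) := fun q =>
    { toFun := fun F => F.1 (fun a => algebraMap ℂ K (q.1 a), fun a => algebraMap ℂ K (q.2 a))
      map_add' := fun _ _ => rfl
      map_smul' := fun _ _ => rfl } with hev
  obtain ⟨f, hf1, hf2, hf3⟩ := Submodule.exists_fun_fin_finrank_span_eq K (Set.range ev)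
  choose q hq using hf1
  have key : ∀ F ∈ WK K d m, (∀ k, F (fun a => algebraMap ℂ K ((q k).1 a), fun a => algebraMap ℂ K ((q k).2 a)) = 0) → F = 0 := by
    intro F hF h
    refine eq_zero_of_complex hF fun v w => ?_
    have h1 : ev (v, w) ∈ Submodule.span K (Set.range f) := by
      rw [hf2]
      exact Submodule.subset_span ⟨_, rfl⟩
    have h2 : ∀ φ ∈ Submodule.span K (Set.range f), φ ⟨F, hF⟩ = 0 := by
      intro φ hφ
      induction hφ using Submodule.span_induction with
      | mem φ hφ =>
        obtain ⟨k, rfl⟩ := hφ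
        rw [← hq k]
        exact h k
      | zero => rfl
      | add a b _ _ ha hb => rw [LinearMap.add_apply, ha, hb, add_zero]
      | smul c a _ ha => rw [LinearMap.smul_apply, ha, smul_zero]
    exact h2 _ h1
  have hle : Module.finrank K (Submodule.span K (Set.range ev)) ≤ Module.finrank K (WK K d m) := by
    refine (Submodule.finrank_le _).trans ?_
    rw [Subspace.dual_finrank_eq]
  refine ⟨fun k => if h : k.1 < Module.finrank K (Submodule.span K (Set.range ev)) then q ⟨k.1, h⟩ else 0, fun F hF h => key F hF fun k => ?_⟩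
  have h1 := h ⟨k.1, k.2.trans_le hle⟩
  simp only [k.2, dif_pos] at h1
  exact h1

/-- the action of a matrix on the functions -/
def actL (G : Matrix (Fin d) (Fin d) K) : ((Fin d → K) × (Fin d → K) → K) →ₗ[K] ((Fin d → K) × (Fin d → K) → K) :=
  LinearMap.funLeft K K fun p => (G.mulVec p.1, G.mulVec p.2)

theorem actL_apply (G : Matrix (Fin d) (Fin d) K) (F : (Fin d → K) × (Fin d → K) → K) (p : (Fin d → K) × (Fin d → K)) :
    actL G F p = F (G.mulVec p.1, G.mulVec p.2) := rfl

theorem actL_mem (G : Matrix (Fin d) (Fin d) K) {F : (Fin d → K) × (Fin d → K) → K} (hF : F ∈ WK K d m) : actL G F ∈ WK K d m := by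
  unfold WK at hF
  induction hF using Submodule.span_induction with
  | mem F hF =>
    obtain ⟨c, rfl⟩ := hF
    have h := mem_WK (n := Fin d) (m := m) (fun i a => G i a) (A := ∏ s, X (c s)) (by
      have := IsHomogeneous.prod (R := K) Finset.univ (fun s => (X (c s) : MvPolynomial (Fin d × Fin d) K)) (fun _ => 1) fun s _ => isHomogeneous_X K (c s)
      simpa using this)
    convert h using 1
    ext p
    rw [actL_apply, map_prod]
    simp [Matrix.mulVec, dotProduct, pl]
  | zero => rw [map_zero]; exact Submodule.zero_mem _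
  | add F G _ _ hF hG => rw [map_add]; exact Submodule.add_mem _ hF hG
  | smul c F _ hF => rw [map_smul]; exact Submodule.smul_mem _ _ hF

variable (m) in
/-- the action on `WK` -/
def act (G : Matrix (Fin d) (Fin d) K) : WK K d m →ₗ[K] WK K d m :=
  (actL G).restrict fun _ hF => actL_mem G hF

theorem act_apply (G : Matrix (Fin d) (Fin d) K) (F : WK K d m) (p : (Fin d → K) × (Fin d → K)) :
    (act m G F).1 p = F.1 (G.mulVec p.1, G.mulVec p.2) := rfl

theorem act_mul (G H : Matrix (Fin d) (Fin d) K) : act m (G * H) = act m H * act m G := by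
  ext F p
  rw [Module.End.mul_apply]
  rw [act_apply, act_apply, act_apply, Matrix.mulVec_mulVec, Matrix.mulVec_mulVec]

theorem act_one : act m (1 : Matrix (Fin d) (Fin d) K) = 1 := by
  ext F p
  rw [act_apply, Matrix.one_mulVec, Matrix.one_mulVec]
  rfl

theorem smul_eval {F : (Fin d → K) × (Fin d → K) → K} (hF : F ∈ WK K d m) (c : K) (p : (Fin d → K) × (Fin d → K)) :
    F (c • p.1, c • p.2) = c ^ (2 * m) * F p := by
  unfold WK at hF
  induction hF using Submodule.span_induction with
  | mem F hF =>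
    obtain ⟨e, rfl⟩ := hF
    have h : ∀ s, pl (c • p.1) (c • p.2) (e s) = c ^ 2 * pl p.1 p.2 (e s) := fun s => by
      simp only [pl, Pi.smul_apply, smul_eq_mul]
      ring
    simp only [h]
    rw [Finset.prod_mul_distrib, Finset.prod_const, Finset.card_univ, Fintype.card_fin, ← pow_mul]
  | zero => simp
  | add F G _ _ hF hG => rw [Pi.add_apply, Pi.add_apply, hF, hG, mul_add]
  | smul a F _ hF => rw [Pi.smul_apply, Pi.smul_apply, hF, smul_eq_mul, smul_eq_mul]; ring

theorem act_smul_one (c : K) : act m (c • (1 : Matrix (Fin d) (Fin d) K)) = c ^ (2 * m) • 1 := by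
  ext F p
  rw [act_apply, Matrix.smul_mulVec, Matrix.smul_mulVec, Matrix.one_mulVec, Matrix.one_mulVec, smul_eval F.2]
  rfl

theorem det_act {G : Matrix (Fin d) (Fin d) K} (hG : G.det ≠ 0) :
    LinearMap.det (act m G) ^ d = G.det ^ (2 * m * Module.finrank K (WK K d m)) := by
  have : CharZero K := charZero_of_injective_algebraMap (algebraMap ℂ K).injective
  refine char_pow (fun G => LinearMap.det (act m G)) (fun A B _ _ => ?_) ?_ (fun c _ => ?_) hG
  · rw [act_mul, map_mul, mul_comm]
  · rw [act_one, map_one]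
  · rw [act_smul_one, LinearMap.det_smul, map_one, mul_one, ← pow_mul]

theorem det_eval_aux {r : ℕ} (hr : Module.finrank K (WK K d m) = r) {p : Fin r → (Fin d → K) × (Fin d → K)}
    (hp : ∀ F ∈ WK K d m, (∀ k, F (p k) = 0) → F = 0) {F : Fin r → (Fin d → K) × (Fin d → K) → K} (hF : ∀ s, F s ∈ WK K d m)
    {G : Matrix (Fin d) (Fin d) K} (hG : G.det ≠ 0) :
    (Matrix.of fun s k => F s (G.mulVec (p k).1, G.mulVec (p k).2)).det ^ d = G.det ^ (2 * m * r) * (Matrix.of fun s k => F s (p k)).det ^ d := by
  set E0 : WK K d m →ₗ[K] (Fin r → K) :=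
    { toFun := fun F k => F.1 (p k)
      map_add' := fun _ _ => rfl
      map_smul' := fun _ _ => rfl } with hE0
  have hinj : Function.Injective E0 := by
    rw [← LinearMap.ker_eq_bot, LinearMap.ker_eq_bot']
    intro F hF
    exact Subtype.ext (hp F.1 F.2 fun k => congrFun hF k)
  set E : WK K d m ≃ₗ[K] (Fin r → K) := LinearEquiv.ofInjectiveOfFinrankEq E0 hinj (by rw [hr, Module.finrank_fin_fun]) with hE
  have hEa : ∀ F k, E F k = F.1 (p k) := fun F k => by
    have h := LinearEquiv.coe_ofInjectiveOfFinrankEq E0 hinj (by rw [hr, Module.finrank_fin_fun])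
    exact congrFun (LinearMap.congr_fun h F) k
  set T : (Fin r → K) →ₗ[K] (Fin r → K) := E.toLinearMap ∘ₗ act m G ∘ₗ E.symm.toLinearMap with hT
  have hdet : LinearMap.det T = LinearMap.det (act m G) := by
    rw [hT, ← LinearMap.det_conj (act m G) E]
  have hM : (Matrix.of fun s k => F s (G.mulVec (p k).1, G.mulVec (p k).2)) = (Matrix.of fun s k => F s (p k)) * (LinearMap.toMatrix' T).transpose := by
    ext s k
    have h1 : T (fun k => F s (p k)) k = F s (G.mulVec (p k).1, G.mulVec (p k).2) := by
      have h2 : (fun k => F s (p k)) = E ⟨F s, hF s⟩ := by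
        ext k
        rw [hEa]
      rw [h2, hT]
      simp only [LinearMap.coe_comp, LinearEquiv.coe_coe, Function.comp_apply, LinearEquiv.symm_apply_apply]
      rw [hEa, act_apply]
    rw [Matrix.of_apply, ← h1, ← LinearMap.toMatrix'_mulVec T, Matrix.mulVec, dotProduct, Matrix.mul_apply]
    exact Finset.sum_congr rfl fun l _ => by rw [Matrix.transpose_apply, Matrix.of_apply, mul_comm]
  rw [hM, Matrix.det_mul, Matrix.det_transpose, LinearMap.det_toMatrix', hdet, mul_pow, det_act hG, hr, mul_comm]

/-- the change of the coordinates -/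
theorem det_eval {p : Fin (Module.finrank K (WK K d m)) → (Fin d → K) × (Fin d → K)} (hp : ∀ F ∈ WK K d m, (∀ k, F (p k) = 0) → F = 0)
    {F : Fin (Module.finrank K (WK K d m)) → (Fin d → K) × (Fin d → K) → K} (hF : ∀ s, F s ∈ WK K d m) {G : Matrix (Fin d) (Fin d) K} (hG : G.det ≠ 0) :
    (Matrix.of fun s k => F s (G.mulVec (p k).1, G.mulVec (p k).2)).det ^ d =
      G.det ^ (2 * m * Module.finrank K (WK K d m)) * (Matrix.of fun s k => F s (p k)).det ^ d :=
  det_eval_aux rfl hp hF hG

theorem finrank_WK_pos (hd : 2 ≤ d) : 0 < Module.finrank K (WK K d m) := by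
  rw [Module.finrank_pos_iff_exists_ne_zero]
  refine ⟨⟨fun p => ∏ _s : Fin m, pl p.1 p.2 (⟨0, by omega⟩, ⟨1, by omega⟩), Submodule.subset_span ⟨fun _ => (⟨0, by omega⟩, ⟨1, by omega⟩), rfl⟩⟩, fun h => ?_⟩
  have h1 := congrFun (congrArg Subtype.val h) (Pi.single ⟨0, by omega⟩ 1, Pi.single ⟨1, by omega⟩ 1)
  simp [pl] at h1

end Pool.Agent.AD.G
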