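import Pool.Agent.AD.G.Spec
import Pool.Agent.AD.G.W

/-!
# AD G Gen: the sections span at the generic point

`K` is generated by the ratios of the coordinates of the `K`-point `ξ` of the cone of `P` (`ξ i₀ = 1`), `b` is a basis of `Ω[K⁄ℂ]` with the dual derivations `D a`, `T v = ∑ a, v a • (D a ξ)`.  The functions
`F k (v, w) = (Ω k).val i₀ ξ (T v) (T w)` are in `WK K d m` (`mem_WK`).  `exists_sections`: let `p` be the complex evaluation points.  If all the determinants vanish, the matrix `(F k (p l))` (`J × r`) has rank `< r`: there is (over `K`) a vector `y ≠ 0` in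
`K^r` with `∑ l, F k (p l) y l = 0` for all `k`.  The `d` vectors `D a ξ` are linearly independent over `K` modulo `ξ` (`∑ c_a D a ξ = 0` implies that the derivation `∑ c_a D a` kills all `ξ i`, so `K`, so `c = 0`; the coordinate `i₀` of `D a ξ` is `0`): some
`d × d` minor `δ` of `(D a ξ i)` is not zero.  `exists_spec` for all the coordinates `ξ i`, `D a ξ i`, `y l`, and `h = δ * y l₀`: at the closed point `x`, `τ_a = φ (D a ξ)` are `d` independent vectors of `conTan P x` modulo `x`, and `η = φ y ≠ 0`,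
`∑ l, (Ω k).toFun x (τ p_l) (τ p_l') η_l = 0` for all `k`.  Choose linear forms `λ_a` with `λ_a (τ_b) = δ_ab`, `λ_a x = 0`.  By `Generates` every product of `m` two-forms `λ_a ∧ λ_b` is a combination of the `Ω k` at `x`, so `∑ l, G (p l) η l = 0` for all
`G ∈ WK ℂ d m`.  But the evaluations at the complex points `p l` are linearly independent on `WK ℂ d m`: (points) if `∑ l, G (p l) η l = 0` for all products `G` of minors (functions with integer coefficients), then also over `K`
for all `G ∈ WK K d m`, so `η = 0` since `WK K d m → K^r` is onto (injective by the choice of `p`, equal dimensions): contradiction.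
-/

set_option autoImplicit false

open MvPolynomial
open Pool.Agent.H13.SM (conTan cone)
open Pool.Agent.H23 (dualDer)

noncomputable section

namespace Pool.Agent.AD.G

variable {N d m J : ℕ} {K : Type} [Field K] [Algebra ℂ K] {P : Ideal (MvPolynomial (Fin (N + 1)) ℂ)}

/-- the function on pairs of vectors given by a section, in the coordinates of the basis `b` -/
def Fz (b : Module.Basis (Fin d) K Ω[K⁄ℂ]) (ξ : Fin (N + 1) → K) (i₀ : Fin (N + 1)) (Ω : BSec P m) (p : (Fin d → K) × (Fin d → K)) : K :=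
  Ω.val i₀ ξ (fun i => ∑ a, dualDer b a (ξ i) * p.1 a) (fun i => ∑ a, dualDer b a (ξ i) * p.2 a)


/-- if all the maximal minors vanish, there is a vector in the kernel -/
private theorem Gen_ker {F : Type*} [Field F] {r J : ℕ} {M : Fin J → Fin r → F}
    (h : ∀ j : Fin r → Fin J, (Matrix.of fun s k => M (j s) k).det = 0) :
    ∃ y : Fin r → F, y ≠ 0 ∧ ∀ k, ∑ l, M k l * y l = 0 := by
  by_cases htop : Submodule.span F (Set.range M) = ⊤
  · exfalso
    obtain ⟨f, hf, -, hli⟩ := Submodule.exists_fun_fin_finrank_span_eq F (Set.range M)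
    have hr : Module.finrank F (Submodule.span F (Set.range M)) = r := by
      rw [htop, finrank_top, Module.finrank_fin_fun]
    choose j hj using hf
    have h3 : LinearIndependent F (Matrix.of fun s k => M (j ((finCongr hr).symm s)) k).row := by
      have h4 := hli.comp _ (finCongr hr).symm.injective
      have h5 : (Matrix.of fun s k => M (j ((finCongr hr).symm s)) k).row = f ∘ (finCongr hr).symm := by
        funext s
        exact hj _
      rw [h5]
      exact h4
    rw [Matrix.linearIndependent_rows_iff_isUnit, Matrix.isUnit_iff_isUnit_det] at h3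
    exact h3.ne_zero (h (fun s => j ((finCongr hr).symm s)))
  · obtain ⟨f, hf0, hf⟩ := Submodule.exists_le_ker_of_lt_top _ (lt_top_iff_ne_top.2 htop)
    refine ⟨fun l => f (fun j => if l = j then 1 else 0), ?_, ?_⟩
    · intro h0
      apply hf0
      refine LinearMap.ext fun x => ?_
      rw [LinearMap.pi_apply_eq_sum_univ f]
      refine Finset.sum_eq_zero fun i _ => ?_
      have h1 := congrFun h0 i
      simp only [Pi.zero_apply] at h1
      rw [h1, smul_zero]
    · intro k
      have h1 : f (M k) = 0 := hf (Submodule.subset_span ⟨k, rfl⟩)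
      rw [LinearMap.pi_apply_eq_sum_univ f] at h1
      exact h1

private theorem Gen_li (b : Module.Basis (Fin d) K Ω[K⁄ℂ]) {ξ : Fin (N + 1) → K}
    (hgen : IntermediateField.adjoin ℂ (Set.range ξ) = ⊤) {c : Fin d → K}
    (h : ∀ i, ∑ a, c a * dualDer b a (ξ i) = 0) : c = 0 := by
  have h1 : ∀ f : K, ∑ a, c a * dualDer b a f = 0 := by
    intro f
    have hf : f ∈ IntermediateField.adjoin ℂ (Set.range ξ) := by
      rw [hgen]
      trivial
    induction hf using IntermediateField.adjoin_induction with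
    | mem x hx =>
      obtain ⟨i, rfl⟩ := hx
      exact h i
    | algebraMap x =>
      refine Finset.sum_eq_zero fun a _ => ?_
      rw [Derivation.map_algebraMap, mul_zero]
    | add x y _ _ hx hy => simp only [map_add, mul_add, Finset.sum_add_distrib, hx, hy, add_zero]
    | inv x _ hx =>
      have h2 : ∀ a, c a * dualDer b a x⁻¹ = -x⁻¹ ^ 2 * (c a * dualDer b a x) := by
        intro a
        rw [Derivation.leibniz_inv, smul_eq_mul]
        ring
      simp_rw [h2, ← Finset.mul_sum, hx, mul_zero]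
    | mul x y _ _ hx hy =>
      have h2 : ∀ a, c a * dualDer b a (x * y) =
          x * (c a * dualDer b a y) + y * (c a * dualDer b a x) := by
        intro a
        rw [Derivation.leibniz, smul_eq_mul, smul_eq_mul]
        ring
      simp_rw [h2, Finset.sum_add_distrib, ← Finset.mul_sum, hx, hy, mul_zero, add_zero]
  have h2 : ∀ ω : Ω[K⁄ℂ], ∑ a, c a * b.repr ω a = 0 := by
    intro ω
    have hω : ω ∈ Submodule.span K (Set.range (KaehlerDifferential.D ℂ K)) := by
      rw [KaehlerDifferential.span_range_derivation]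
      trivial
    induction hω using Submodule.span_induction with
    | mem x hx =>
      obtain ⟨f, rfl⟩ := hx
      exact h1 f
    | zero => simp
    | add x y _ _ hx hy =>
      simp only [map_add, Finsupp.add_apply, mul_add, Finset.sum_add_distrib, hx, hy, add_zero]
    | smul t x _ hx =>
      have h3 : ∀ a, c a * b.repr (t • x) a = t * (c a * b.repr x a) := by
        intro a
        rw [map_smul, Finsupp.smul_apply, smul_eq_mul]
        ring
      simp_rw [h3, ← Finset.mul_sum, hx, mul_zero]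
  funext a
  have h3 := h2 (b a)
  simp only [Module.Basis.repr_self, Finsupp.single_apply, mul_ite, mul_one, mul_zero,
    Finset.sum_ite_eq, Finset.mem_univ, if_true] at h3
  exact h3

private theorem Gen_nat {A B : Type*} [CommRing A] [CommRing B] [Algebra ℂ A] [Algebra ℂ B] (f : A →ₐ[ℂ] B)
    (ξ v w : Fin (N + 1) → A) (Q : MvPolynomial (Fin (N + 1) × Fin (N + 1)) (MvPolynomial (Fin (N + 1)) ℂ)) :
    f (eval (pl v w) (map (aeval ξ).toRingHom Q)) =
      eval (pl (fun i => f (v i)) (fun i => f (w i))) (map (aeval (fun i => f (ξ i))).toRingHom Q) := by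
  rw [MvPolynomial.eval_map, MvPolynomial.eval_map]
  have h1 := MvPolynomial.eval₂_comp_left (f : A →+* B) (aeval ξ).toRingHom (pl v w) Q
  have h2 : ((f : A →+* B).comp (aeval ξ).toRingHom) = (aeval (fun i => f (ξ i)) : MvPolynomial (Fin (N + 1)) ℂ →ₐ[ℂ] B).toRingHom := by
    have h3 : f.comp (aeval ξ) = (aeval (fun i => f (ξ i)) : MvPolynomial (Fin (N + 1)) ℂ →ₐ[ℂ] B) := by
      ext i
      simp
    rw [← h3]
    rfl
  have h4 : (f : A →+* B) ∘ pl v w = pl (fun i => f (v i)) (fun i => f (w i)) := by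
    funext q
    simp [pl]
  rw [h2, h4] at h1
  exact h1

theorem Fz_mem (b : Module.Basis (Fin d) K Ω[K⁄ℂ]) (ξ : Fin (N + 1) → K) (i₀ : Fin (N + 1)) (Ω : BSec P m) : Fz b ξ i₀ Ω ∈ WK K d m := by
  have h1 := mem_WK (m := m) (fun (i : Fin (N + 1)) a => dualDer b a (ξ i))
    ((Ω.regular i₀).choose_spec.choose_spec.1.map (aeval ξ : MvPolynomial (Fin (N + 1)) ℂ →ₐ[ℂ] K).toRingHom)
  have h2 := Submodule.smul_mem (WK K d m) (ξ i₀ ^ (Ω.regular i₀).choose)⁻¹ h1
  have h3 : Fz b ξ i₀ Ω = (ξ i₀ ^ (Ω.regular i₀).choose)⁻¹ • fun p : (Fin d → K) × (Fin d → K) =>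
      eval (pl (fun i => ∑ a, dualDer b a (ξ i) * p.1 a) (fun i => ∑ a, dualDer b a (ξ i) * p.2 a))
        (map (aeval ξ : MvPolynomial (Fin (N + 1)) ℂ →ₐ[ℂ] K).toRingHom (Ω.regular i₀).choose_spec.choose) := by
    funext p
    unfold Fz BSec.val
    rw [div_eq_inv_mul]
    rfl
  rw [h3]
  exact h2

theorem exists_sections (b : Module.Basis (Fin d) K Ω[K⁄ℂ]) {ξ : Fin (N + 1) → K} {i₀ : Fin (N + 1)} (hξ : ξ ∈ coneK P K) (h0 : ξ i₀ = 1)
    (hgen : IntermediateField.adjoin ℂ (Set.range ξ) = ⊤) {Ω : Fin J → BSec P m} (hΩ : Generates Ω)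
    {p : Fin (Module.finrank K (WK K d m)) → (Fin d → ℂ) × (Fin d → ℂ)}
    (hp : ∀ F ∈ WK K d m, (∀ k, F (fun a => algebraMap ℂ K ((p k).1 a), fun a => algebraMap ℂ K ((p k).2 a)) = 0) → F = 0) :
    ∃ j : Fin (Module.finrank K (WK K d m)) → Fin J, (Matrix.of fun s k => Fz b ξ i₀ (Ω (j s))
      (fun a => algebraMap ℂ K ((p k).1 a), fun a => algebraMap ℂ K ((p k).2 a))).det ≠ 0 := by
  classical
  by_contra hcon
  push Not at hcon
  obtain ⟨y, hy0, hy⟩ := Gen_ker (M := fun k l => Fz b ξ i₀ (Ω k)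
    (fun a => algebraMap ℂ K ((p l).1 a), fun a => algebraMap ℂ K ((p l).2 a))) hcon
  obtain ⟨l₀, hl₀⟩ : ∃ l₀, y l₀ ≠ 0 := Function.ne_iff.1 hy0
  obtain ⟨e, he⟩ : ∃ e : Fin d → Fin (N + 1), (Matrix.of fun s a => dualDer b a (ξ (e s))).det ≠ 0 := by
    by_contra hc
    push Not at hc
    obtain ⟨c, hc0, hc1⟩ := Gen_ker (M := fun i a => dualDer b a (ξ i)) hc
    refine hc0 (Gen_li b hgen fun i => ?_)
    rw [← hc1 i]
    exact Finset.sum_congr rfl fun a _ => mul_comm _ _
  obtain ⟨R, φ, hR, hh, hφ⟩ := exists_spec (Finset.univ.image ξ ∪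
    Finset.univ.image (fun q : Fin d × Fin (N + 1) => dualDer b q.1 (ξ q.2)) ∪ Finset.univ.image y)
    (mul_ne_zero he hl₀)
  have hξR : ∀ i, ξ i ∈ R := fun i => hR _ (Finset.mem_union_left _ (Finset.mem_union_left _
    (Finset.mem_image_of_mem _ (Finset.mem_univ i))))
  have hDR : ∀ a i, dualDer b a (ξ i) ∈ R := by
    intro a i
    apply hR
    refine Finset.mem_union_left _ (Finset.mem_union_right _ ?_)
    exact Finset.mem_image.2 ⟨(a, i), Finset.mem_univ _, rfl⟩
  have hyR : ∀ l, y l ∈ R := fun l => hR _ (Finset.mem_union_right _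
    (Finset.mem_image_of_mem _ (Finset.mem_univ l)))
  obtain ⟨ξR, hξR'⟩ : ∃ ξR : Fin (N + 1) → R, ∀ i, (ξR i : K) = ξ i := ⟨fun i => ⟨ξ i, hξR i⟩, fun _ => rfl⟩
  obtain ⟨DR, hDR'⟩ : ∃ DR : Fin d → Fin (N + 1) → R, ∀ a i, (DR a i : K) = dualDer b a (ξ i) :=
    ⟨fun a i => ⟨dualDer b a (ξ i), hDR a i⟩, fun _ _ => rfl⟩
  obtain ⟨yR, hyR'⟩ : ∃ yR : Fin (Module.finrank K (WK K d m)) → R, ∀ l, (yR l : K) = y l :=
    ⟨fun l => ⟨y l, hyR l⟩, fun _ => rfl⟩
  have hinj : ∀ a c : R, (a : K) = c → a = c := fun a c h => Subtype.ext h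
  -- the minor and `y l₀` do not vanish at the closed point
  have hδR : (Matrix.of fun s a => φ (DR a (e s))).det ≠ 0 ∧ φ (yR l₀) ≠ 0 := by
    have h1 : (⟨_, hh⟩ : R) = (Matrix.of fun s a => DR a (e s)).det * yR l₀ := by
      apply hinj
      have h2 : (((Matrix.of fun s a => DR a (e s)).det * yR l₀ : R) : K) =
          R.val (Matrix.of fun s a => DR a (e s)).det * R.val (yR l₀) := rfl
      rw [h2, AlgHom.map_det]
      show (Matrix.of fun s a => dualDer b a (ξ (e s))).det * y l₀ = _
      congr 1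
      · congr 1
        ext s a
        exact (hDR' a (e s)).symm
      · exact (hyR' l₀).symm
    rw [h1, map_mul, AlgHom.map_det] at hφ
    exact ⟨left_ne_zero_of_mul hφ, right_ne_zero_of_mul hφ⟩
  -- the closed point
  obtain ⟨x, hx⟩ : ∃ x : Fin (N + 1) → ℂ, x = fun i => φ (ξR i) := ⟨_, rfl⟩
  obtain ⟨τ, hτ⟩ : ∃ τ : Fin d → Fin (N + 1) → ℂ, τ = fun a i => φ (DR a i) := ⟨_, rfl⟩
  have hx1 : x i₀ = 1 := by
    have h1 : ξR i₀ = 1 := hinj _ _ (by rw [hξR', h0]; rfl)
    rw [hx]
    show φ (ξR i₀) = 1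
    rw [h1, map_one]
  have hτ0 : ∀ a, τ a i₀ = 0 := by
    intro a
    have h1 : DR a i₀ = 0 := hinj _ _ (by
      rw [hDR', h0, Derivation.map_one_eq_zero]
      rfl)
    rw [hτ]
    show φ (DR a i₀) = 0
    rw [h1, map_zero]
  have haev : ∀ Q : MvPolynomial (Fin (N + 1)) ℂ, eval x Q = φ (aeval ξR Q) := by
    intro Q
    have h1 : φ.comp (aeval ξR) = (aeval x : MvPolynomial (Fin (N + 1)) ℂ →ₐ[ℂ] ℂ) := by
      ext i
      simp [hx]
    have h2 := congrArg (fun g : MvPolynomial (Fin (N + 1)) ℂ →ₐ[ℂ] ℂ => g Q) h1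
    simp only [AlgHom.comp_apply] at h2
    rw [h2]
    rw [MvPolynomial.aeval_eq_eval]
  have haev2 : ∀ Q : MvPolynomial (Fin (N + 1)) ℂ, ((aeval ξR Q : R) : K) = aeval ξ Q := by
    intro Q
    have h1 : R.val.comp (aeval ξR) = (aeval ξ : MvPolynomial (Fin (N + 1)) ℂ →ₐ[ℂ] K) := by
      ext i
      simp [hξR']
    have h2 := congrArg (fun g : MvPolynomial (Fin (N + 1)) ℂ →ₐ[ℂ] K => g Q) h1
    exact h2
  have hxc : x ∈ cone P := by
    refine ⟨fun h => ?_, fun Q hQ => ?_⟩
    · rw [h] at hx1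
      exact zero_ne_one hx1
    · rw [haev, hinj (aeval ξR Q) 0 (by rw [haev2, hξ.2 Q hQ]; rfl), map_zero]
  have hτc : ∀ a, τ a ∈ conTan P x := by
    intro a Q hQ
    have h1 := der_mem_conTanK hξ (dualDer b a) Q hQ
    have h2 : ∑ i, DR a i * aeval ξR (pderiv i Q) = 0 := by
      apply hinj
      have h3 : ((∑ i, DR a i * aeval ξR (pderiv i Q) : R) : K) =
          ∑ i, (DR a i : K) * ((aeval ξR (pderiv i Q) : R) : K) := by
        push_cast
        rfl
      rw [h3]
      simp only [hDR', haev2]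
      exact h1
    have h3 := congrArg φ h2
    rw [map_sum, map_zero] at h3
    rw [← h3]
    refine Finset.sum_congr rfl fun i _ => ?_
    rw [map_mul, haev, hτ]
  -- the relations
  have hrel : ∀ k, ∑ l, (Ω k).toFun x (∑ a, (p l).1 a • τ a) (∑ a, (p l).2 a • τ a) * φ (yR l) = 0 := by
    intro k
    obtain ⟨Q, hQ⟩ : ∃ Q, Q = ((Ω k).regular i₀).choose_spec.choose := ⟨_, rfl⟩
    have hreg := ((Ω k).regular i₀).choose_spec.choose_spec.2
    rw [← hQ] at hreg
    have h1 : ∑ l, eval (pl (fun i => ∑ a, DR a i * algebraMap ℂ R ((p l).1 a))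
        (fun i => ∑ a, DR a i * algebraMap ℂ R ((p l).2 a))) (map (aeval ξR).toRingHom Q) * yR l = 0 := by
      apply hinj
      have h2 := hy k
      show R.val _ = _
      rw [map_sum]
      refine Eq.trans ?_ (h2.trans (by rfl))
      refine Finset.sum_congr rfl fun l _ => ?_
      rw [map_mul, Gen_nat]
      show _ * (yR l : K) = _
      rw [hyR']
      congr 1
      unfold Fz BSec.val
      rw [← hQ, h0, one_pow, div_one]
      have e1 : (fun i => R.val (∑ a, DR a i * algebraMap ℂ R ((p l).1 a))) =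
          fun i => ∑ a, dualDer b a (ξ i) * algebraMap ℂ K ((p l).1 a) := by
        funext i
        rw [map_sum]
        refine Finset.sum_congr rfl fun a _ => ?_
        rw [map_mul]
        show (DR a i : K) * _ = _
        rw [hDR']
        rfl
      have e2 : (fun i => R.val (∑ a, DR a i * algebraMap ℂ R ((p l).2 a))) =
          fun i => ∑ a, dualDer b a (ξ i) * algebraMap ℂ K ((p l).2 a) := by
        funext i
        rw [map_sum]
        refine Finset.sum_congr rfl fun a _ => ?_
        rw [map_mul]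
        show (DR a i : K) * _ = _
        rw [hDR']
        rfl
      have e3 : (fun i => R.val (ξR i)) = ξ := by
        funext i
        exact hξR' i
      rw [e1, e2, e3]
    have h2 := congrArg φ h1
    rw [map_sum, map_zero] at h2
    rw [← h2]
    refine Finset.sum_congr rfl fun l _ => ?_
    rw [map_mul, Gen_nat]
    congr 1
    have e1 : ∀ q : Fin d → ℂ, (fun i => φ (∑ a, DR a i * algebraMap ℂ R (q a))) = ∑ a, q a • τ a := by
      intro q
      funext i
      rw [map_sum, Finset.sum_apply]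
      refine Finset.sum_congr rfl fun a _ => ?_
      rw [map_mul, AlgHom.commutes, hτ]
      show _ * q a = q a * _
      rw [mul_comm]
    rw [e1, e1]
    have h3 := hreg x hxc (∑ a, (p l).1 a • τ a) (Submodule.sum_mem _ fun a _ => Submodule.smul_mem _ _ (hτc a))
      (∑ a, (p l).2 a • τ a) (Submodule.sum_mem _ fun a _ => Submodule.smul_mem _ _ (hτc a))
    rw [hx1, one_pow, one_mul] at h3
    rw [h3]
    have h4 : (aeval (fun i => φ (ξR i)) : MvPolynomial (Fin (N + 1)) ℂ →ₐ[ℂ] ℂ).toRingHom = eval x := by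
      rw [← hx]
      refine RingHom.ext fun q => ?_
      show aeval x q = eval x q
      rw [MvPolynomial.aeval_eq_eval]
    rw [h4]
  -- the linear forms
  obtain ⟨B, hB⟩ : ∃ B : Matrix (Fin d) (Fin d) ℂ, B = Matrix.of fun s a => τ a (e s) := ⟨_, rfl⟩
  have hBdet : B.det ≠ 0 := by
    rw [hB, hτ]
    exact hδR.1
  obtain ⟨L, hL⟩ : ∃ L : Fin d → Module.Dual ℂ (Fin (N + 1) → ℂ), ∀ a v,
      L a v = ∑ s, B⁻¹ a s * (v (e s) - v i₀ * x (e s)) := by
    refine ⟨fun a => ∑ s, B⁻¹ a s • (LinearMap.proj (e s) - x (e s) • LinearMap.proj i₀), fun a v => ?_⟩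
    simp [mul_comm]
  have hLx : ∀ a, L a x = 0 := by
    intro a
    rw [hL]
    refine Finset.sum_eq_zero fun s _ => ?_
    rw [hx1, one_mul, sub_self, mul_zero]
  have hLτ : ∀ a (q : Fin d → ℂ), L a (∑ c, q c • τ c) = q a := by
    intro a q
    have h1 : ∀ c, L a (τ c) = if a = c then 1 else 0 := by
      intro c
      rw [hL]
      have h2 : ∑ s, B⁻¹ a s * (τ c (e s) - τ c i₀ * x (e s)) = (B⁻¹ * B) a c := by
        rw [Matrix.mul_apply]
        refine Finset.sum_congr rfl fun s _ => ?_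
        rw [hτ0, zero_mul, sub_zero, hB]
        rfl
      rw [h2, Matrix.nonsing_inv_mul _ (isUnit_iff_ne_zero.2 hBdet), Matrix.one_apply]
    rw [map_sum]
    simp only [map_smul, h1, smul_eq_mul, mul_ite, mul_one, mul_zero, Finset.sum_ite_eq,
      Finset.mem_univ, if_true]
  have hprod : ∀ cc : Fin m → Fin d × Fin d, ∑ l, (∏ s, pl (p l).1 (p l).2 (cc s)) * φ (yR l) = 0 := by
    intro cc
    obtain ⟨c, hc⟩ := hΩ x hxc (fun s => L (cc s).1) (fun s => L (cc s).2) (fun s => ⟨hLx _, hLx _⟩)
    have h1 : ∀ l, ∏ s, pl (p l).1 (p l).2 (cc s) =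
        ∑ k, c k * (Ω k).toFun x (∑ a, (p l).1 a • τ a) (∑ a, (p l).2 a • τ a) := by
      intro l
      rw [← hc _ (Submodule.sum_mem _ fun a _ => Submodule.smul_mem _ _ (hτc a)) _
        (Submodule.sum_mem _ fun a _ => Submodule.smul_mem _ _ (hτc a))]
      refine Finset.prod_congr rfl fun s _ => ?_
      rw [hLτ, hLτ, hLτ, hLτ]
      unfold pl
      ring
    calc ∑ l, (∏ s, pl (p l).1 (p l).2 (cc s)) * φ (yR l)
        = ∑ l, ∑ k, c k * ((Ω k).toFun x (∑ a, (p l).1 a • τ a) (∑ a, (p l).2 a • τ a) * φ (yR l)) := by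
          refine Finset.sum_congr rfl fun l _ => ?_
          rw [h1, Finset.sum_mul]
          refine Finset.sum_congr rfl fun k _ => by ring
      _ = ∑ k, c k * ∑ l, (Ω k).toFun x (∑ a, (p l).1 a • τ a) (∑ a, (p l).2 a • τ a) * φ (yR l) := by
          rw [Finset.sum_comm]
          refine Finset.sum_congr rfl fun k _ => ?_
          rw [Finset.mul_sum]
      _ = 0 := Finset.sum_eq_zero fun k _ => by rw [hrel k, mul_zero]
  -- all the functions of the space
  have hall : ∀ G ∈ WK K d m, ∑ l, G (fun a => algebraMap ℂ K ((p l).1 a), fun a => algebraMap ℂ K ((p l).2 a)) *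
      algebraMap ℂ K (φ (yR l)) = 0 := by
    intro G hG
    unfold WK at hG
    induction hG using Submodule.span_induction with
    | mem G hG =>
      obtain ⟨cc, rfl⟩ := hG
      have h1 := congrArg (algebraMap ℂ K) (hprod cc)
      rw [map_sum, map_zero] at h1
      rw [← h1]
      refine Finset.sum_congr rfl fun l _ => ?_
      rw [map_mul, map_prod]
      congr 1
      refine Finset.prod_congr rfl fun s _ => ?_
      simp [pl]
    | zero => simp
    | add G G' _ _ h1 h2 =>
      simp only [Pi.add_apply, add_mul, Finset.sum_add_distrib, h1, h2, add_zero]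
    | smul t G _ h1 =>
      simp only [Pi.smul_apply, smul_eq_mul, mul_assoc, ← Finset.mul_sum, h1, mul_zero]
  -- surjectivity of the evaluation
  obtain ⟨E, hE⟩ : ∃ E : WK K d m →ₗ[K] (Fin (Module.finrank K (WK K d m)) → K), ∀ G l, E G l =
      (G : (Fin d → K) × (Fin d → K) → K) (fun a => algebraMap ℂ K ((p l).1 a), fun a => algebraMap ℂ K ((p l).2 a)) := by
    refine ⟨LinearMap.pi fun l => (LinearMap.proj (R := K) (φ := fun _ : (Fin d → K) × (Fin d → K) => K)
      (fun a => algebraMap ℂ K ((p l).1 a), fun a => algebraMap ℂ K ((p l).2 a))).comp (WK K d m).subtype, fun G l => rfl⟩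
  have hEinj : Function.Injective E := by
    rw [← LinearMap.ker_eq_bot, LinearMap.ker_eq_bot']
    intro G hG
    apply Subtype.ext
    refine hp G G.2 fun l => ?_
    rw [← hE, hG]
    rfl
  have hEsur : Function.Surjective E :=
    (LinearMap.injective_iff_surjective_of_finrank_eq_finrank (by rw [Module.finrank_fin_fun])).1 hEinj
  obtain ⟨G, hG⟩ := hEsur (Pi.single l₀ 1)
  have h1 := hall G G.2
  simp only [← hE, hG, Pi.single_apply, ite_mul, one_mul, zero_mul, Finset.sum_ite_eq',
    Finset.mem_univ, if_true] at h1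
  exact hδR.2 ((map_eq_zero (algebraMap ℂ K)).1 h1)

end Pool.Agent.AD.G
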