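import Pool.Agent.AD.G.Gen
import Pool.Agent.H17LG.Variety
import Pool.Agent.H17LG.ModLREG
import Pool.Agent.H17R.Point
import Pool.Agent.H23.Bridge

/-!
# AD G Main: all subvarieties of dimension at least two are of general type

`Q ⊇ P` prime, homogeneous, `K = FunField Q` of transcendence degree `d = k + 1 ≥ 2`, `ξ i = x i / x i₀` with `x i₀ ∉ Q`.  `z` a transcendence basis, `b` the basis `d z` of `Ω[K⁄ℂ]` (`exists_basis_kaehler`), `ω = Form.mk 1 z`,
`Δ` = the determinant of `exists_sections`, `r = finrank (WK K d m)`, `M = 2 m r`, `f i = Δ ^ d * ξ i` (`i : Fin (N + 1)`; put `ξ i₀ = 1` first).  `f i / f i₀ = ξ i` generate `K`.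
For a prime divisor `E` let `g`, `b'` be the coordinates of `exists_divisorCoords`, `G` the matrix with `dualDer b' c = ∑ a, G a c • dualDer b a` (`G a c = dualDer b' c (z a)`), `ω = det G • Form.mk 1 g` (up to transposition), `det G ≠ 0`.
`Fz b ξ i₀ Ω (G v, G w) = Fz b' ξ i₀ Ω (v, w)`.  Let `j` be such that `ord (ξ j)` is minimal: `0 ≤ ord (ξ j * Fz b' ξ i₀ Ω (v, w))` for complex `v`, `w` (`BSec.val_integral` for the derivations `∑ v c • dualDer b' c`).  So the determinant `Δ'` of the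
`Fz b'` satisfies `0 ≤ ord (ξ j ^ r * Δ')`, and `det_eval`: `Δ' ^ d = (det G) ^ M * Δ ^ d`.  So `ord (f i * (det G) ^ M) = ord (Δ' ^ d * ξ i) ≥ ord ((ξ j ^ r Δ') ^ d) + ord (ξ i / ξ j) + (r d - 1) ord (1 / ξ j)` and `ord (1/ξ j) = ord (ξ i₀ / ξ j) ≥ 0`.
-/

set_option autoImplicit false

open MvPolynomial
open Pool.Agent.H13.SM (conTan cone)
open Pool.Agent.H62.FC (Homog)
open Pool.Agent.H17LG.Variety (FunField IsLogGeneralType PoleAtMost ratio)
open Pool.Agent.H17GT (coordFun functionField)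
open Pool.Agent.H23.Fano (PrimeDivisorOver Form)
open Pool.Agent.H23 (dualDer dualDer_apply exists_basis_kaehler ιMulti_eq fc fc_ιMulti exists_int det_mem valRing ofFano exists_divisorCoords)

noncomputable section

namespace Pool.Agent.AD.G

variable {N m J : ℕ} {P : Ideal (MvPolynomial (Fin (N + 1)) ℂ)}

variable {K : Type} [Field K] [Algebra ℂ K]

private theorem main_expand {d : ℕ} {t : Fin d → K} (b : Module.Basis (Fin d) K Ω[K⁄ℂ]) (hb : ∀ i, b i = KaehlerDifferential.D ℂ K (t i))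
    (X : Derivation ℂ K K) (f : K) : X f = ∑ i, X (t i) * dualDer b i f := by
  have h1 : ∀ g, X g = X.liftKaehlerDifferential (KaehlerDifferential.D ℂ K g) := fun g => by
    rw [Derivation.liftKaehlerDifferential_comp_D]
  rw [h1 f, ← b.sum_repr (KaehlerDifferential.D ℂ K f), map_sum]
  refine Finset.sum_congr rfl fun i _ => ?_
  rw [map_smul, hb, ← h1, smul_eq_mul, dualDer_apply, mul_comm]

/-- the change of the basis of the differentials -/
private theorem main_change {d : ℕ} {z : Fin d → K} (b b' : Module.Basis (Fin d) K Ω[K⁄ℂ]) (hb : ∀ i, b i = KaehlerDifferential.D ℂ K (z i))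
    (v : Fin d → K) (f : K) :
    ∑ c, dualDer b' c f * v c = ∑ a, dualDer b a f * (Matrix.of fun a c => dualDer b' c (z a)).mulVec v a := by
  have h1 : ∀ c, dualDer b' c f * v c = ∑ a, dualDer b a f * (dualDer b' c (z a) * v c) := by
    intro c
    rw [main_expand b hb (dualDer b' c) f, Finset.sum_mul]
    exact Finset.sum_congr rfl fun a _ => by ring
  simp only [h1]
  rw [Finset.sum_comm]
  refine Finset.sum_congr rfl fun a _ => ?_
  rw [Matrix.mulVec, dotProduct, Finset.mul_sum]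
  rfl

/-- the derivation with the complex coordinates `v` -/
private theorem main_der {d : ℕ} (b' : Module.Basis (Fin d) K Ω[K⁄ℂ]) (ord : AddValuation K (WithTop ℤ)) (hc : ∀ c : ℂ, 0 ≤ ord (algebraMap ℂ K c))
    (hreg : ∀ i f, 0 ≤ ord f → 0 ≤ ord (dualDer b' i f)) (v : Fin d → ℂ) :
    ∃ D : Derivation ℂ K K, (∀ f, ∑ a, dualDer b' a f * algebraMap ℂ K (v a) = D f) ∧ ∀ f, 0 ≤ ord f → 0 ≤ ord (D f) := by
  refine ⟨(∑ a, algebraMap ℂ K (v a) • b'.coord a).compDer (KaehlerDifferential.D ℂ K), fun f => ?_, fun f hf => ?_⟩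
  · change _ = (∑ a, algebraMap ℂ K (v a) • b'.coord a) (KaehlerDifferential.D ℂ K f)
    rw [LinearMap.sum_apply]
    refine Finset.sum_congr rfl fun a _ => ?_
    rw [LinearMap.smul_apply, smul_eq_mul, mul_comm]
    rfl
  · change 0 ≤ ord ((∑ a, algebraMap ℂ K (v a) • b'.coord a) (KaehlerDifferential.D ℂ K f))
    rw [LinearMap.sum_apply]
    have h1 : ∑ a, (algebraMap ℂ K (v a) • b'.coord a) (KaehlerDifferential.D ℂ K f) ∈ valRing ord hc := by
      refine sum_mem fun a _ => ?_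
      rw [LinearMap.smul_apply, smul_eq_mul]
      exact (valRing ord hc).mul_mem (hc (v a)) (hreg a f hf)
    exact h1

omit [Algebra ℂ K] in
private theorem main_quot (v : AddValuation K (WithTop ℤ)) {x t : K} (ht : t ≠ 0) (h : v t ≤ v x) : 0 ≤ v (x / t) := by
  rw [div_eq_mul_inv]
  by_cases hx : x = 0
  · rw [hx, zero_mul, v.map_zero]
    exact le_top
  obtain ⟨q, hq⟩ := exists_int v (mul_ne_zero hx (inv_ne_zero ht))
  obtain ⟨p, hp⟩ := exists_int v ht
  have h1 : v (x * t⁻¹) + v t = v x := by rw [← v.map_mul, mul_assoc, inv_mul_cancel₀ ht, mul_one]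
  rw [← h1, hq, hp, ← WithTop.coe_add, WithTop.coe_le_coe] at h
  rw [hq]
  exact_mod_cast (by omega : (0 : ℤ) ≤ q)

omit [Algebra ℂ K] in
/-- a coordinate with minimal order -/
private theorem main_min (v : AddValuation K (WithTop ℤ)) {ξ : Fin (N + 1) → K} {i₀ : Fin (N + 1)} (h0 : ξ i₀ = 1) :
    ∃ j, ξ j ≠ 0 ∧ ∀ k, 0 ≤ v (ξ k / ξ j) := by
  obtain ⟨j, -, hj⟩ := Finset.exists_min_image Finset.univ (fun k => v (ξ k)) ⟨i₀, Finset.mem_univ _⟩
  have hj0 : ξ j ≠ 0 := by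
    intro h
    have h1 := hj i₀ (Finset.mem_univ _)
    rw [h, v.map_zero, h0, v.map_one] at h1
    exact absurd (top_le_iff.1 h1) (by simp)
  exact ⟨j, hj0, fun k => main_quot v hj0 (hj k (Finset.mem_univ _))⟩

/-- a variety of positive dimension has a non-zero coordinate -/
private theorem main_coord {Q : Ideal (MvPolynomial (Fin (N + 1)) ℂ)} [Q.IsPrime] {k : ℕ} {z : Fin (k + 1) → FunField Q}
    (hz : IsTranscendenceBasis ℂ z) : ∃ i, coordFun Q i ≠ 0 := by
  by_contra hcon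
  push Not at hcon
  have h1 : functionField Q = ⊥ := by
    rw [functionField, IntermediateField.adjoin_eq_bot_iff]
    rintro f ⟨i, j, rfl⟩
    rw [hcon i, zero_div]
    exact zero_mem _
  have h2 : Transcendental ℂ (z 0) := hz.1.transcendental 0
  apply h2
  set y : functionField Q := z 0 with hy
  have h3 : (y : FractionRing (MvPolynomial (Fin (N + 1)) ℂ ⧸ Q)) ∈
      (⊥ : IntermediateField ℂ (FractionRing (MvPolynomial (Fin (N + 1)) ℂ ⧸ Q))) := by
    rw [← h1]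
    exact y.2
  obtain ⟨c, hc⟩ := IntermediateField.mem_bot.mp h3
  have h4 : y = algebraMap ℂ (functionField Q) c := Subtype.ext hc.symm
  have h5 : IsAlgebraic ℂ y := by
    rw [h4]
    exact isAlgebraic_algebraMap c
  exact h5

theorem generalType_of_generates (hm : 1 ≤ m) {Ω : Fin J → BSec P m} (hΩ : Generates Ω) (Q : Ideal (MvPolynomial (Fin (N + 1)) ℂ)) [Q.IsPrime] (hQ : Homog Q)
    (hPQ : P ≤ Q) {d : ℕ} (hd : 2 ≤ d) {z : Fin d → FunField Q} (hz : IsTranscendenceBasis ℂ z) :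
    IsLogGeneralType (K := FunField Q) (k := d) fun _ => False := by
  classical
  obtain ⟨k, rfl⟩ : ∃ k, d = k + 1 := ⟨d - 1, by omega⟩
  have hess : Algebra.EssFiniteType ℂ (FunField Q) := Pool.Agent.H17GT.essFiniteType_functionField Q
  obtain ⟨Ω', hΩe⟩ : ∃ Ω' : Fin J → BSec Q m, Ω' = fun k => (Ω k).restrict hPQ := ⟨_, rfl⟩
  have hΩ' : Generates Ω' := by
    rw [hΩe]
    exact hΩ.restrict hPQ
  -- the generic point
  obtain ⟨i₀, hi₀⟩ : ∃ i₀, coordFun Q i₀ ≠ 0 := main_coord hz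
  obtain ⟨ξ, hξ⟩ : ∃ ξ : Fin (N + 1) → FunField Q, ξ = fun i => ratio Q i i₀ := ⟨_, rfl⟩
  have hξ0 : ξ i₀ = 1 := by
    rw [hξ]
    exact Pool.Agent.H17R.ratio_self hi₀
  have hgen : IntermediateField.adjoin ℂ (Set.range ξ) = ⊤ := by
    rw [hξ]
    exact Pool.Agent.H17R.adjoin_ratio hi₀
  have hcone : ξ ∈ coneK Q (FunField Q) := by
    refine ⟨fun h => ?_, fun R hR => ?_⟩
    · rw [h] at hξ0
      exact zero_ne_one hξ0
    · rw [hξ, ← MvPolynomial.sum_homogeneousComponent R, map_sum]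
      refine Finset.sum_eq_zero fun n _ => ?_
      exact (Pool.Agent.H17R.gen_eq_zero_iff hi₀ (MvPolynomial.homogeneousComponent_isHomogeneous n R)).2 (hQ R hR n)
  obtain ⟨b, hb⟩ := exists_basis_kaehler hz
  obtain ⟨p, hp⟩ := exists_points (K := FunField Q) (d := k + 1) (m := m)
  obtain ⟨j, hj⟩ := exists_sections b hcone hξ0 hgen hΩ' hp
  obtain ⟨pK, hpK⟩ : ∃ pK : Fin (Module.finrank (FunField Q) (WK (FunField Q) (k + 1) m)) → (Fin (k + 1) → FunField Q) × (Fin (k + 1) → FunField Q),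
    pK = fun l => (fun a => algebraMap ℂ (FunField Q) ((p l).1 a), fun a => algebraMap ℂ (FunField Q) ((p l).2 a)) := ⟨_, rfl⟩
  have hp' : ∀ F ∈ WK (FunField Q) (k + 1) m, (∀ l, F (pK l) = 0) → F = 0 := by
    rw [hpK]
    exact hp
  have hr : 0 < Module.finrank (FunField Q) (WK (FunField Q) (k + 1) m) := finrank_WK_pos hd
  obtain ⟨Δ, hΔ⟩ : ∃ Δ, Δ = (Matrix.of fun s l => Fz b ξ i₀ (Ω' (j s)) (pK l)).det := ⟨_, rfl⟩
  have hΔ0 : Δ ≠ 0 := by
    rw [hΔ, hpK]
    exact hj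
  have hω0 : Form.mk (1 : FunField Q) z ≠ 0 := by
    intro h0
    have h1 : fc b ((1 : FunField Q) • exteriorPower.ιMulti (FunField Q) (k + 1) fun i => KaehlerDifferential.D ℂ (FunField Q) (z i)) = 0 := by
      rw [show ((1 : FunField Q) • exteriorPower.ιMulti (FunField Q) (k + 1) fun i => KaehlerDifferential.D ℂ (FunField Q) (z i)) = 0 from h0, map_zero]
    rw [map_smul, fc_ιMulti, smul_eq_mul] at h1
    simp only [← hb, b.det_self, mul_one] at h1
    exact one_ne_zero h1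
  refine ⟨2 * m * Module.finrank (FunField Q) (WK (FunField Q) (k + 1) m), Nat.mul_pos (Nat.mul_pos two_pos hm) hr, Form.mk 1 z, hω0, N,
    fun i => Δ ^ (k + 1) * ξ (Equiv.swap 0 i₀ i), ?_, ?_, ?_⟩
  · change Δ ^ (k + 1) * ξ (Equiv.swap 0 i₀ 0) ≠ 0
    rw [Equiv.swap_apply_left, hξ0, mul_one]
    exact pow_ne_zero _ hΔ0
  · intro i E
    refine ⟨fun _ => ?_, fun h => h.elim⟩
    obtain ⟨g, b', hb', hg0, hg, hreg⟩ := exists_divisorCoords hz (ofFano E)
    change ∀ i, 0 ≤ E.ord (g i) at hg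
    change ∀ i f, 0 ≤ E.ord f → 0 ≤ E.ord (dualDer b' i f) at hreg
    obtain ⟨γ, hγ⟩ : ∃ γ, γ = b'.det fun i => KaehlerDifferential.D ℂ (FunField Q) (z i) := ⟨_, rfl⟩
    have hη : Form.mk 1 g ∈ Pool.Agent.H23.Fano.regularForms (k + 1) E.localRing := by
      refine AddSubgroup.subset_closure ⟨1, g, ?_, hg, rfl⟩
      change 0 ≤ E.ord 1
      rw [E.ord.map_one]
    have hω : Form.mk (1 : FunField Q) z = γ • Form.mk 1 g := by
      change ((1 : FunField Q) • exteriorPower.ιMulti (FunField Q) (k + 1) fun i => KaehlerDifferential.D ℂ (FunField Q) (z i)) =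
        γ • ((1 : FunField Q) • exteriorPower.ιMulti (FunField Q) (k + 1) fun i => KaehlerDifferential.D ℂ (FunField Q) (g i))
      rw [one_smul, one_smul, ιMulti_eq b', ← hγ]
      simp only [hb']
    have hγ0 : γ ≠ 0 := by
      intro h0
      apply hω0
      rw [hω, h0, zero_smul]
    refine ⟨γ, Form.mk 1 g, hη, hω, ?_⟩
    rw [Nat.cast_zero, add_zero]
    obtain ⟨G, hG⟩ : ∃ G : Matrix (Fin (k + 1)) (Fin (k + 1)) (FunField Q), G = Matrix.of fun a c => dualDer b' c (z a) := ⟨_, rfl⟩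
    have hGγ : G.det = γ := by
      rw [hγ, Module.Basis.det_apply, ← Matrix.det_transpose]
      congr 1
      ext a c
      rw [hG]
      rfl
    have hGF : ∀ s l, Fz b ξ i₀ (Ω' (j s)) (G.mulVec (pK l).1, G.mulVec (pK l).2) = Fz b' ξ i₀ (Ω' (j s)) (pK l) := by
      intro s l
      unfold Fz
      congr 1
      · funext i
        rw [main_change b b' hb, ← hG]
      · funext i
        rw [main_change b b' hb, ← hG]
    have hdet := det_eval hp' (F := fun s => Fz b ξ i₀ (Ω' (j s))) (fun s => Fz_mem b ξ i₀ (Ω' (j s))) (G := G) (by rw [hGγ]; exact hγ0)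
    simp only [hGF] at hdet
    rw [← hΔ, hGγ] at hdet
    obtain ⟨Δ', hΔ'⟩ : ∃ Δ', Δ' = (Matrix.of fun s l => Fz b' ξ i₀ (Ω' (j s)) (pK l)).det := ⟨_, rfl⟩
    rw [← hΔ'] at hdet
    obtain ⟨i₁, hi₁, hmin⟩ := main_min E.ord hξ0
    have hint : 0 ≤ E.ord (ξ i₁ ^ Module.finrank (FunField Q) (WK (FunField Q) (k + 1) m) * Δ') := by
      have h1 := Matrix.det_smul (Matrix.of fun s l => Fz b' ξ i₀ (Ω' (j s)) (pK l)) (ξ i₁)
      rw [Fintype.card_fin, ← hΔ'] at h1
      rw [← h1]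
      refine det_mem (valRing E.ord E.ord_const) _ fun s l => ?_
      change 0 ≤ E.ord (ξ i₁ * Fz b' ξ i₀ (Ω' (j s)) (pK l))
      obtain ⟨D, hD1, hD2⟩ := main_der b' E.ord E.ord_const hreg (p l).1
      obtain ⟨D', hD1', hD2'⟩ := main_der b' E.ord E.ord_const hreg (p l).2
      have h2 := (Ω' (j s)).val_integral hQ E.ord E.ord_const hcone (i := i₀) (by rw [hξ0]; exact one_ne_zero) hi₁ hmin hD2 hD2'
      have h3 : Fz b' ξ i₀ (Ω' (j s)) (pK l) = (Ω' (j s)).val i₀ ξ (fun k => D (ξ k)) (fun k => D' (ξ k)) := by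
        unfold Fz
        rw [hpK]
        simp only [hD1, hD1']
      rw [h3]
      exact h2
    obtain ⟨r, hr'⟩ : ∃ r, r = Module.finrank (FunField Q) (WK (FunField Q) (k + 1) m) := ⟨_, rfl⟩
    rw [← hr'] at hint hdet hr ⊢
    have hrk : 1 ≤ r * (k + 1) := Nat.mul_pos hr (Nat.succ_pos k)
    have hfin : Δ ^ (k + 1) * ξ (Equiv.swap 0 i₀ i) * γ ^ (2 * m * r) =
        (ξ i₁ ^ r * Δ') ^ (k + 1) * (ξ (Equiv.swap 0 i₀ i) / ξ i₁) * (ξ i₀ / ξ i₁) ^ (r * (k + 1) - 1) := by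
      have h1 : ξ i₁ ^ (r * (k + 1)) = ξ i₁ * ξ i₁ ^ (r * (k + 1) - 1) := by
        rw [← pow_succ']
        congr 1
        omega
      rw [mul_pow, ← pow_mul, h1, hξ0, div_pow, one_pow, hdet]
      have h2 : ξ i₁ ^ (r * (k + 1) - 1) ≠ 0 := pow_ne_zero _ hi₁
      field_simp
    rw [hfin]
    exact (valRing E.ord E.ord_const).mul_mem ((valRing E.ord E.ord_const).mul_mem ((valRing E.ord E.ord_const).pow_mem hint _) (hmin _))
      ((valRing E.ord E.ord_const).pow_mem (hmin i₀) _)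
  · have h1 : (Set.range fun i => Δ ^ (k + 1) * ξ (Equiv.swap 0 i₀ i) / (Δ ^ (k + 1) * ξ (Equiv.swap 0 i₀ 0))) = Set.range ξ := by
      ext y
      constructor
      · rintro ⟨i, rfl⟩
        refine ⟨Equiv.swap 0 i₀ i, ?_⟩
        change _ = Δ ^ (k + 1) * ξ (Equiv.swap 0 i₀ i) / (Δ ^ (k + 1) * ξ (Equiv.swap 0 i₀ 0))
        rw [Equiv.swap_apply_left, hξ0, mul_one, mul_div_cancel_left₀ _ (pow_ne_zero _ hΔ0)]
      · rintro ⟨i, rfl⟩
        refine ⟨Equiv.swap 0 i₀ i, ?_⟩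
        simp only [Equiv.swap_apply_self, Equiv.swap_apply_left]
        rw [hξ0, mul_one, mul_div_cancel_left₀ _ (pow_ne_zero _ hΔ0)]
    rw [h1, hgen]
    exact ⟨fun x => isAlgebraic_algebraMap (⟨x, IntermediateField.mem_top⟩ : (⊤ : IntermediateField ℂ (FunField Q)))⟩

end Pool.Agent.AD.G
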