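import Pool.Agent.AD.G.Defs
import Pool.Agent.H23.Forms

/-!
# AD G Spec: specialisation

`exists_spec`: `R = Algebra.adjoin ℂ (s ∪ {h, h⁻¹})` is a finitely generated `ℂ`-algebra; a maximal ideal has the residue field `ℂ` (Zariski's lemma).

`transfer`: otherwise apply `exists_spec` to the coordinates of `ξ`, `v`, `w`, `u` and `h = ξ i₀ * aeval H`: at the closed point `x = φ ξ` is in `cone P`, `φ v`, `φ w` are in `conTan P x`, and `H` does not vanish there.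

`BSec.val`: the value of a section at a `K`-point, by the representation on `x i ≠ 0`; `val_indep`, `val_add_smul`, `val_scale` by `transfer` (for `val_scale` with the additional variable `c`).
`BSec.restrict`: restriction to a smaller cone.
-/

set_option autoImplicit false

open MvPolynomial
open Pool.Agent.H13.SM (conTan cone)
open Pool.Agent.H62.FC (Homog)

noncomputable section

namespace Pool.Agent.AD.G

variable {N : ℕ} {K : Type} [Field K] [Algebra ℂ K]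

theorem exists_spec (s : Finset K) {h : K} (hh : h ≠ 0) :
    ∃ (R : Subalgebra ℂ K) (φ : R →ₐ[ℂ] ℂ), (∀ a ∈ s, a ∈ R) ∧ ∃ hR : h ∈ R, φ ⟨h, hR⟩ ≠ 0 := by
  classical
  obtain ⟨T, hT⟩ : ∃ T : Finset K, T = insert h (insert h⁻¹ s) := ⟨_, rfl⟩
  obtain ⟨R, hR⟩ : ∃ R : Subalgebra ℂ K, R = Algebra.adjoin ℂ (T : Set K) := ⟨_, rfl⟩
  have hmem : ∀ a ∈ T, a ∈ R := fun a ha => by
    rw [hR]
    exact Algebra.subset_adjoin ha
  have hhR : h ∈ R := hmem h (by rw [hT]; simp)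
  have hhR' : h⁻¹ ∈ R := hmem _ (by rw [hT]; simp)
  have hft : Algebra.FiniteType ℂ R := by
    rw [← Subalgebra.fg_iff_finiteType, hR]
    exact Subalgebra.fg_adjoin_finset T
  obtain ⟨M, hM⟩ := Ideal.exists_maximal R
  let : Field (R ⧸ M) := Ideal.Quotient.field M
  have hft' : Algebra.FiniteType ℂ (R ⧸ M) :=
    Algebra.FiniteType.of_surjective (Ideal.Quotient.mkₐ ℂ M) (Ideal.Quotient.mkₐ_surjective ℂ M)
  have hfin : Module.Finite ℂ (R ⧸ M) := finite_of_finite_type_of_isJacobsonRing ℂ (R ⧸ M)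
  have hbij : Function.Bijective (algebraMap ℂ (R ⧸ M)) :=
    IsAlgClosed.algebraMap_bijective_of_isIntegral
  let e : ℂ ≃ₐ[ℂ] (R ⧸ M) := AlgEquiv.ofBijective (Algebra.ofId ℂ (R ⧸ M)) hbij
  refine ⟨R, e.symm.toAlgHom.comp (Ideal.Quotient.mkₐ ℂ M), fun a ha => hmem a (by rw [hT]; simp [ha]),
    hhR, ?_⟩
  intro h0
  have h1 : (e.symm.toAlgHom.comp (Ideal.Quotient.mkₐ ℂ M)) (⟨h, hhR⟩ * ⟨h⁻¹, hhR'⟩) = 1 := by
    have : (⟨h, hhR⟩ * ⟨h⁻¹, hhR'⟩ : R) = 1 := by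
      apply Subtype.ext
      show h * h⁻¹ = 1
      exact mul_inv_cancel₀ hh
    rw [this, map_one]
  rw [map_mul, h0, zero_mul] at h1
  exact zero_ne_one h1

/-- the points of the cone with coordinates in `K` -/
def coneK (P : Ideal (MvPolynomial (Fin (N + 1)) ℂ)) (K : Type) [Field K] [Algebra ℂ K] : Set (Fin (N + 1) → K) :=
  {ξ | ξ ≠ 0 ∧ ∀ Q ∈ P, aeval ξ Q = 0}

/-- the tangent vectors of the cone with coordinates in `K` -/
def conTanK (P : Ideal (MvPolynomial (Fin (N + 1)) ℂ)) {K : Type} [Field K] [Algebra ℂ K] (ξ : Fin (N + 1) → K) : Set (Fin (N + 1) → K) :=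
  {v | ∀ Q ∈ P, ∑ i, v i * aeval ξ (pderiv i Q) = 0}

variable {P : Ideal (MvPolynomial (Fin (N + 1)) ℂ)}

/-- the chain rule -/
theorem der_aeval (ξ : Fin (N + 1) → K) (D : Derivation ℂ K K) (Q : MvPolynomial (Fin (N + 1)) ℂ) :
    D (aeval ξ Q) = ∑ i, D (ξ i) * aeval ξ (pderiv i Q) := by
  induction Q using MvPolynomial.induction_on with
  | C a =>
    rw [aeval_C, Derivation.map_algebraMap]
    symm
    exact Finset.sum_eq_zero fun i _ => by rw [pderiv_C, map_zero, mul_zero]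
  | add p q hp hq =>
    rw [map_add, map_add, hp, hq, ← Finset.sum_add_distrib]
    refine Finset.sum_congr rfl fun i _ => ?_
    rw [map_add, map_add, mul_add]
  | mul_X p j hp =>
    rw [map_mul, aeval_X, Derivation.leibniz, hp, smul_eq_mul, smul_eq_mul]
    have h1 : ∀ i, D (ξ i) * aeval ξ (pderiv i (p * X j)) =
        ξ j * (D (ξ i) * aeval ξ (pderiv i p)) + (if i = j then aeval ξ p * D (ξ j) else 0) := by
      intro i
      rw [pderiv_mul, map_add, map_mul, map_mul, aeval_X]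
      by_cases hij : i = j
      · subst hij
        rw [pderiv_X_self, map_one, if_pos rfl]
        ring
      · rw [pderiv_X_of_ne (Ne.symm hij), map_zero, if_neg hij]
        ring
    rw [Finset.sum_congr rfl fun i _ => h1 i, Finset.sum_add_distrib, ← Finset.mul_sum, Finset.sum_ite_eq' Finset.univ j]
    simp only [Finset.mem_univ, if_true]
    ring

theorem der_mem_conTanK {ξ : Fin (N + 1) → K} (hξ : ξ ∈ coneK P K) (D : Derivation ℂ K K) : (fun i => D (ξ i)) ∈ conTanK P ξ := by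
  intro Q hQ
  rw [← der_aeval, hξ.2 Q hQ, map_zero]

/-- **The transfer principle.** -/
theorem transfer {σ : Type} [Finite σ] {ξ v w : Fin (N + 1) → K} {u : σ → K} (hξ : ξ ∈ coneK P K) (hv : v ∈ conTanK P ξ) (hw : w ∈ conTanK P ξ)
    {i₀ : Fin (N + 1)} (h0 : ξ i₀ ≠ 0) (H : MvPolynomial ((Fin (N + 1) ⊕ Fin (N + 1)) ⊕ (Fin (N + 1) ⊕ σ)) ℂ)
    (hH : ∀ x ∈ cone P, x i₀ ≠ 0 → ∀ v ∈ conTan P x, ∀ w ∈ conTan P x, ∀ u : σ → ℂ, eval (Sum.elim (Sum.elim x v) (Sum.elim w u)) H = 0) :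
    aeval (Sum.elim (Sum.elim ξ v) (Sum.elim w u)) H = 0 := by
  classical
  by_contra hne
  have := Fintype.ofFinite σ
  obtain ⟨y, hy⟩ : ∃ y : (Fin (N + 1) ⊕ Fin (N + 1)) ⊕ (Fin (N + 1) ⊕ σ) → K,
    y = Sum.elim (Sum.elim ξ v) (Sum.elim w u) := ⟨_, rfl⟩
  rw [← hy] at hne
  obtain ⟨R, φ, hR, hhR, hφ⟩ := exists_spec (Finset.univ.image y) (mul_ne_zero h0 hne)
  have hyR : ∀ a, y a ∈ R := fun a => hR _ (Finset.mem_image_of_mem _ (Finset.mem_univ a))
  obtain ⟨z, hz⟩ : ∃ z : (Fin (N + 1) ⊕ Fin (N + 1)) ⊕ (Fin (N + 1) ⊕ σ) → R, ∀ a, (z a : K) = y a :=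
    ⟨fun a => ⟨y a, hyR a⟩, fun a => rfl⟩
  have hξz : ∀ i, ((z (Sum.inl (Sum.inl i)) : R) : K) = ξ i := fun i => by rw [hz, hy]; rfl
  have hvz : ∀ i, ((z (Sum.inl (Sum.inr i)) : R) : K) = v i := fun i => by rw [hz, hy]; rfl
  have hwz : ∀ i, ((z (Sum.inr (Sum.inl i)) : R) : K) = w i := fun i => by rw [hz, hy]; rfl
  -- evaluation commutes with the inclusion and with `φ`
  have hinc : ∀ (τ : Type) (q : τ → R) (Q : MvPolynomial τ ℂ), ((aeval q Q : R) : K) = aeval (fun i => (q i : K)) Q := by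
    intro τ q Q
    have h1 := comp_aeval_apply (φ := R.val) q Q
    exact h1
  have hsp : ∀ (τ : Type) (q : τ → R) (Q : MvPolynomial τ ℂ), φ (aeval q Q) = eval (fun i => φ (q i)) Q := by
    intro τ q Q
    rw [comp_aeval_apply, ← coe_aeval_eq_eval]
    rfl
  obtain ⟨ξ', hξ'⟩ : ∃ ξ' : Fin (N + 1) → R, ξ' = fun i => z (Sum.inl (Sum.inl i)) := ⟨_, rfl⟩
  obtain ⟨v', hv'⟩ : ∃ v' : Fin (N + 1) → R, v' = fun i => z (Sum.inl (Sum.inr i)) := ⟨_, rfl⟩
  obtain ⟨w', hw'⟩ : ∃ w' : Fin (N + 1) → R, w' = fun i => z (Sum.inr (Sum.inl i)) := ⟨_, rfl⟩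
  have e1 : (fun i => (ξ' i : K)) = ξ := by
    funext i
    rw [hξ']
    exact hξz i
  have hP0 : ∀ Q ∈ P, eval (fun i => φ (ξ' i)) Q = 0 := by
    intro Q hQ
    rw [← hsp]
    have h1 : aeval ξ' Q = (0 : R) := by
      apply Subtype.ext
      rw [hinc, e1, hξ.2 Q hQ]
      rfl
    rw [h1, map_zero]
  have htan : ∀ (t : Fin (N + 1) → R), (∀ Q ∈ P, ∑ i, (t i : K) * aeval ξ (pderiv i Q) = 0) →
      (fun i => φ (t i)) ∈ conTan P (fun i => φ (ξ' i)) := by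
    intro t ht Q hQ
    have h1 : ∑ i, t i * aeval ξ' (pderiv i Q) = (0 : R) := by
      apply Subtype.ext
      have h2 := ht Q hQ
      rw [← e1] at h2
      rw [← R.coe_val, map_sum]
      simp only [map_mul]
      rw [map_zero, ← h2]
      refine Finset.sum_congr rfl fun i _ => ?_
      rw [R.coe_val, hinc]
    have h2 := congrArg φ h1
    rw [map_sum, map_zero] at h2
    rw [← h2]
    refine Finset.sum_congr rfl fun i _ => ?_
    rw [map_mul, hsp]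
  have hmul : φ ⟨ξ i₀ * aeval y H, hhR⟩ = φ (ξ' i₀) * eval (fun a => φ (z a)) H := by
    have h1 : (⟨ξ i₀ * aeval y H, hhR⟩ : R) = ξ' i₀ * aeval z H := by
      apply Subtype.ext
      show ξ i₀ * aeval y H = (ξ' i₀ : K) * ((aeval z H : R) : K)
      rw [hinc, show (fun a => (z a : K)) = y from funext hz, hξ']
      simp only
      rw [hξz]
    rw [h1, map_mul, hsp]
  rw [hmul] at hφ
  have hx0 : φ (ξ' i₀) ≠ 0 := left_ne_zero_of_mul hφ
  apply right_ne_zero_of_mul hφ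
  have h1 := hH (fun i => φ (ξ' i)) ⟨fun h => hx0 (congrFun h i₀), hP0⟩ hx0 (fun i => φ (v' i))
    (htan v' fun Q hQ => by
      have := hv Q hQ
      rw [← this]
      exact Finset.sum_congr rfl fun i _ => by rw [hv']; simp only; rw [hvz])
    (fun i => φ (w' i))
    (htan w' fun Q hQ => by
      have := hw Q hQ
      rw [← this]
      exact Finset.sum_congr rfl fun i _ => by rw [hw']; simp only; rw [hwz])
    (fun a => φ (z (Sum.inr (Sum.inr a))))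
  have h2 : (Sum.elim (Sum.elim (fun i => φ (ξ' i)) fun i => φ (v' i)) (Sum.elim (fun i => φ (w' i))
      fun a => φ (z (Sum.inr (Sum.inr a))))) = fun a => φ (z a) := by
    funext a
    rcases a with (a | a) | (a | a)
    · simp only [Sum.elim_inl, hξ']
    · simp only [Sum.elim_inl, Sum.elim_inr, hv']
    · simp only [Sum.elim_inl, Sum.elim_inr, hw']
    · simp only [Sum.elim_inr]
  rwa [h2] at h1

/-! ### The polynomial of a section -/

/-- the value of the polynomial `A` at `ξ`, `v`, `w` -/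
def evp {S : Type*} [CommRing S] [Algebra ℂ S] (ξ v w : Fin (N + 1) → S)
    (A : MvPolynomial (Fin (N + 1) × Fin (N + 1)) (MvPolynomial (Fin (N + 1)) ℂ)) : S :=
  eval (pl v w) (map (aeval ξ).toRingHom A)

theorem pl_map {S S' : Type*} [CommRing S] [CommRing S'] (ψ : S →+* S') (v w : Fin (N + 1) → S) :
    (fun p => ψ (pl v w p)) = pl (fun i => ψ (v i)) (fun i => ψ (w i)) := by
  funext p
  unfold pl
  rw [map_sub, map_mul, map_mul]

/-- naturality -/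
theorem evp_map {S S' : Type*} [CommRing S] [Algebra ℂ S] [CommRing S'] [Algebra ℂ S'] (ψ : S →ₐ[ℂ] S')
    (ξ v w : Fin (N + 1) → S) (A : MvPolynomial (Fin (N + 1) × Fin (N + 1)) (MvPolynomial (Fin (N + 1)) ℂ)) :
    ψ (evp ξ v w A) = evp (fun i => ψ (ξ i)) (fun i => ψ (v i)) (fun i => ψ (w i)) A := by
  unfold evp
  rw [eval_map, eval_map]
  have h1 := eval₂_comp_left (ψ : S →+* S') (aeval (R := ℂ) ξ).toRingHom (pl v w) A
  have h2 : (ψ : S →+* S') ∘ pl v w = pl (fun i => ψ (v i)) (fun i => ψ (w i)) := pl_map (ψ : S →+* S') v w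
  have h3 : (ψ : S →+* S').comp (aeval (R := ℂ) ξ).toRingHom = (aeval (R := ℂ) fun i => ψ (ξ i)).toRingHom := by
    have h4 : ψ.comp (aeval ξ) = aeval (R := ℂ) fun i => ψ (ξ i) := comp_aeval ξ ψ
    have h5 := congrArg AlgHom.toRingHom h4
    exact h5
  rw [h2, h3] at h1
  exact h1

theorem evp_complex (x v w : Fin (N + 1) → ℂ) (A : MvPolynomial (Fin (N + 1) × Fin (N + 1)) (MvPolynomial (Fin (N + 1)) ℂ)) :
    evp x v w A = eval (pl v w) (map (eval x) A) := by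
  unfold evp
  congr 2

/-! ### Cones -/

theorem aeval_smul_of_homog {S : Type*} [CommRing S] [Algebra ℂ S] {d : ℕ} {Q : MvPolynomial (Fin (N + 1)) ℂ}
    (hQ : Q.IsHomogeneous d) (c : S) (x : Fin (N + 1) → S) : aeval (c • x) Q = c ^ d * aeval x Q := by
  rw [aeval_def, aeval_def, eval₂_eq', eval₂_eq', Finset.mul_sum]
  refine Finset.sum_congr rfl fun m hm => ?_
  have h1 : ∏ i, (c • x) i ^ m i = c ^ d * ∏ i, x i ^ m i := by
    simp only [Pi.smul_apply, smul_eq_mul, mul_pow, Finset.prod_mul_distrib]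
    rw [Finset.prod_pow_eq_pow_sum]
    have h2 := hQ (mem_support_iff.1 hm)
    rw [Finsupp.weight_apply, Finsupp.sum_fintype _ _ (by simp)] at h2
    simp only [Pi.one_apply, smul_eq_mul, mul_one] at h2
    rw [h2]
  rw [h1]
  ring

theorem cone_smulK (hP : Homog P) {S : Type*} [CommRing S] [Algebra ℂ S] {x : Fin (N + 1) → S} (hx : ∀ Q ∈ P, aeval x Q = 0) (c : S) :
    ∀ Q ∈ P, aeval (c • x) Q = 0 := by
  intro Q hQ
  rw [← sum_homogeneousComponent Q, map_sum]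
  refine Finset.sum_eq_zero fun d _ => ?_
  rw [aeval_smul_of_homog (homogeneousComponent_isHomogeneous d Q), hx _ (hP Q hQ d), mul_zero]

theorem tan_smulK (hP : Homog P) {S : Type*} [CommRing S] [Algebra ℂ S] {x v : Fin (N + 1) → S}
    (hv : ∀ Q ∈ P, ∑ i, v i * aeval x (pderiv i Q) = 0) (c : S) : ∀ Q ∈ P, ∑ i, (c • v) i * aeval (c • x) (pderiv i Q) = 0 := by
  intro Q hQ
  have h1 : ∀ d, ∑ i, (c • v) i * aeval (c • x) (pderiv i (homogeneousComponent d Q)) = 0 := by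
    intro d
    have h2 := hv _ (hP Q hQ d)
    have h3 : ∑ i, (c • v) i * aeval (c • x) (pderiv i (homogeneousComponent d Q)) =
        c ^ (d - 1) * c * ∑ i, v i * aeval x (pderiv i (homogeneousComponent d Q)) := by
      rw [Finset.mul_sum]
      refine Finset.sum_congr rfl fun i _ => ?_
      rw [aeval_smul_of_homog ((homogeneousComponent_isHomogeneous d Q).pderiv), Pi.smul_apply, smul_eq_mul]
      ring
    rw [h3, h2, mul_zero]
  rw [← sum_homogeneousComponent Q]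
  simp only [map_sum, Finset.mul_sum]
  rw [Finset.sum_comm]
  exact Finset.sum_eq_zero fun d _ => h1 d

theorem coneK_smul (hP : Homog P) {ξ : Fin (N + 1) → K} (hξ : ξ ∈ coneK P K) {c : K} (hc : c ≠ 0) : c • ξ ∈ coneK P K :=
  ⟨smul_ne_zero hc hξ.1, cone_smulK hP hξ.2 c⟩

theorem cone_smulC (hP : Homog P) {x : Fin (N + 1) → ℂ} (hx : x ∈ cone P) {c : ℂ} (hc : c ≠ 0) : c • x ∈ cone P :=
  ⟨smul_ne_zero hc hx.1, Pool.Agent.H13.SM.cone_smul hP hx.2 c⟩

theorem conTan_smulC (hP : Homog P) {x v : Fin (N + 1) → ℂ} (hv : v ∈ conTan P x) (c : ℂ) : c • v ∈ conTan P (c • x) := by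
  intro Q hQ
  have h1 := tan_smulK (S := ℂ) hP (x := x) (v := v) (fun Q hQ => by
    have := hv Q hQ
    rw [← coe_aeval_eq_eval] at this
    exact this) c Q hQ
  rw [← coe_aeval_eq_eval]
  exact h1

theorem self_mem_conTan (hP : Homog P) {x : Fin (N + 1) → ℂ} (hx : x ∈ cone P) : x ∈ conTan P x :=
  fun _ hQ => Pool.Agent.H13.SM.euler hP hx.2 hQ

/-! ### Values of sections -/

/-- `A` represents the function `f` on `x i ≠ 0` -/
def Rep (P : Ideal (MvPolynomial (Fin (N + 1)) ℂ)) (f : (Fin (N + 1) → ℂ) → (Fin (N + 1) → ℂ) → (Fin (N + 1) → ℂ) → ℂ) (i : Fin (N + 1)) (e : ℕ)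
    (A : MvPolynomial (Fin (N + 1) × Fin (N + 1)) (MvPolynomial (Fin (N + 1)) ℂ)) : Prop :=
  ∀ x ∈ cone P, ∀ v ∈ conTan P x, ∀ w ∈ conTan P x, x i ^ e * f x v w = evp x v w A

section aux

variable {f : (Fin (N + 1) → ℂ) → (Fin (N + 1) → ℂ) → (Fin (N + 1) → ℂ) → ℂ} {i j : Fin (N + 1)} {e e' : ℕ}
  {A B : MvPolynomial (Fin (N + 1) × Fin (N + 1)) (MvPolynomial (Fin (N + 1)) ℂ)} {ξ v w : Fin (N + 1) → K}

private theorem indep_aux (hA : Rep P f i e A) (hB : Rep P f j e' B) (hξ : ξ ∈ coneK P K) (hv : v ∈ conTanK P ξ) (hw : w ∈ conTanK P ξ)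
    (hi : ξ i ≠ 0) : evp ξ v w A * ξ j ^ e' = evp ξ v w B * ξ i ^ e := by
  obtain ⟨x', hx'⟩ : ∃ x' : Fin (N + 1) → MvPolynomial ((Fin (N + 1) ⊕ Fin (N + 1)) ⊕ (Fin (N + 1) ⊕ PEmpty)) ℂ,
    x' = fun k => X (Sum.inl (Sum.inl k)) := ⟨_, rfl⟩
  obtain ⟨v', hv'⟩ : ∃ v' : Fin (N + 1) → MvPolynomial ((Fin (N + 1) ⊕ Fin (N + 1)) ⊕ (Fin (N + 1) ⊕ PEmpty)) ℂ,
    v' = fun k => X (Sum.inl (Sum.inr k)) := ⟨_, rfl⟩
  obtain ⟨w', hw'⟩ : ∃ w' : Fin (N + 1) → MvPolynomial ((Fin (N + 1) ⊕ Fin (N + 1)) ⊕ (Fin (N + 1) ⊕ PEmpty)) ℂ,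
    w' = fun k => X (Sum.inr (Sum.inl k)) := ⟨_, rfl⟩
  -- the value of the polynomial
  have gen : ∀ {S : Type} [CommRing S] [Algebra ℂ S] (x v w : Fin (N + 1) → S) (u : PEmpty → S),
      (aeval (Sum.elim (Sum.elim x v) (Sum.elim w u)) : _ →ₐ[ℂ] S) (evp x' v' w' A * x' j ^ e' - evp x' v' w' B * x' i ^ e) =
        evp x v w A * x j ^ e' - evp x v w B * x i ^ e := by
    intro S _ _ x v w u
    rw [map_sub, map_mul, map_mul, evp_map, evp_map, map_pow, map_pow, hx', hv', hw']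
    simp only [aeval_X, Sum.elim_inl, Sum.elim_inr]
  have key := transfer (u := fun a : PEmpty => (a.elim : K)) hξ hv hw hi
    (evp x' v' w' A * x' j ^ e' - evp x' v' w' B * x' i ^ e) (by
      intro x hx _ v hv w hw u
      have h1 := gen x v w u
      rw [aeval_eq_eval] at h1
      rw [h1, ← hA x hx v hv w hw, ← hB x hx v hv w hw]
      ring)
  rw [gen] at key
  exact sub_eq_zero.1 key

private theorem add_aux (hP : Homog P) (hA : Rep P f i e A)
    (hadd : ∀ x ∈ cone P, ∀ v ∈ conTan P x, ∀ w ∈ conTan P x, ∀ a b : ℂ, f x (v + a • x) (w + b • x) = f x v w)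
    (hξ : ξ ∈ coneK P K) (hv : v ∈ conTanK P ξ) (hw : w ∈ conTanK P ξ)
    (hi : ξ i ≠ 0) (a b : K) : evp ξ (v + a • ξ) (w + b • ξ) A = evp ξ v w A := by
  obtain ⟨x', hx'⟩ : ∃ x' : Fin (N + 1) → MvPolynomial ((Fin (N + 1) ⊕ Fin (N + 1)) ⊕ (Fin (N + 1) ⊕ Bool)) ℂ,
    x' = fun k => X (Sum.inl (Sum.inl k)) := ⟨_, rfl⟩
  obtain ⟨v', hv'⟩ : ∃ v' : Fin (N + 1) → MvPolynomial ((Fin (N + 1) ⊕ Fin (N + 1)) ⊕ (Fin (N + 1) ⊕ Bool)) ℂ,
    v' = fun k => X (Sum.inl (Sum.inr k)) := ⟨_, rfl⟩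
  obtain ⟨w', hw'⟩ : ∃ w' : Fin (N + 1) → MvPolynomial ((Fin (N + 1) ⊕ Fin (N + 1)) ⊕ (Fin (N + 1) ⊕ Bool)) ℂ,
    w' = fun k => X (Sum.inr (Sum.inl k)) := ⟨_, rfl⟩
  obtain ⟨u', hu'⟩ : ∃ u' : Bool → MvPolynomial ((Fin (N + 1) ⊕ Fin (N + 1)) ⊕ (Fin (N + 1) ⊕ Bool)) ℂ,
    u' = fun k => X (Sum.inr (Sum.inr k)) := ⟨_, rfl⟩
  have gen : ∀ {S : Type} [CommRing S] [Algebra ℂ S] (x v w : Fin (N + 1) → S) (u : Bool → S),
      (aeval (Sum.elim (Sum.elim x v) (Sum.elim w u)) : _ →ₐ[ℂ] S)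
        (evp x' (v' + u' true • x') (w' + u' false • x') A - evp x' v' w' A) =
        evp x (v + u true • x) (w + u false • x) A - evp x v w A := by
    intro S _ _ x v w u
    rw [map_sub, evp_map, evp_map, hx', hv', hw', hu']
    simp only [aeval_X, Sum.elim_inl, Sum.elim_inr, Pi.add_apply, Pi.smul_apply, smul_eq_mul, map_add, map_mul]
    rfl
  have key := transfer (u := fun t : Bool => if t then a else b) hξ hv hw hi
    (evp x' (v' + u' true • x') (w' + u' false • x') A - evp x' v' w' A) (by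
      intro x hx _ v hv w hw u
      have h1 := gen x v w u
      rw [aeval_eq_eval] at h1
      have hxx := self_mem_conTan hP hx
      rw [h1, ← hA x hx v hv w hw, ← hA x hx _ ((conTan P x).add_mem hv ((conTan P x).smul_mem _ hxx)) _
        ((conTan P x).add_mem hw ((conTan P x).smul_mem _ hxx)), hadd x hx v hv w hw]
      ring)
  rw [gen] at key
  have h2 := sub_eq_zero.1 key
  simpa using h2

private theorem scale_aux (hP : Homog P) (hA : Rep P f i e A)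
    (hsc : ∀ x ∈ cone P, ∀ v ∈ conTan P x, ∀ w ∈ conTan P x, ∀ c : ℂ, c ≠ 0 → c * f (c • x) (c • v) (c • w) = f x v w)
    (hξ : ξ ∈ coneK P K) (hv : v ∈ conTanK P ξ) (hw : w ∈ conTanK P ξ)
    (hi : ξ i ≠ 0) {c : K} (hc : c ≠ 0) : c * evp (c • ξ) (c • v) (c • w) A = c ^ e * evp ξ v w A := by
  obtain ⟨x', hx'⟩ : ∃ x' : Fin (N + 1) → MvPolynomial ((Fin (N + 1) ⊕ Fin (N + 1)) ⊕ (Fin (N + 1) ⊕ Unit)) ℂ,
    x' = fun k => X (Sum.inl (Sum.inl k)) := ⟨_, rfl⟩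
  obtain ⟨v', hv'⟩ : ∃ v' : Fin (N + 1) → MvPolynomial ((Fin (N + 1) ⊕ Fin (N + 1)) ⊕ (Fin (N + 1) ⊕ Unit)) ℂ,
    v' = fun k => X (Sum.inl (Sum.inr k)) := ⟨_, rfl⟩
  obtain ⟨w', hw'⟩ : ∃ w' : Fin (N + 1) → MvPolynomial ((Fin (N + 1) ⊕ Fin (N + 1)) ⊕ (Fin (N + 1) ⊕ Unit)) ℂ,
    w' = fun k => X (Sum.inr (Sum.inl k)) := ⟨_, rfl⟩
  obtain ⟨u', hu'⟩ : ∃ u' : Unit → MvPolynomial ((Fin (N + 1) ⊕ Fin (N + 1)) ⊕ (Fin (N + 1) ⊕ Unit)) ℂ,
    u' = fun k => X (Sum.inr (Sum.inr k)) := ⟨_, rfl⟩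
  have gen : ∀ {S : Type} [CommRing S] [Algebra ℂ S] (x v w : Fin (N + 1) → S) (u : Unit → S),
      (aeval (Sum.elim (Sum.elim x v) (Sum.elim w u)) : _ →ₐ[ℂ] S)
        (u' () * (u' () * evp (u' () • x') (u' () • v') (u' () • w') A - u' () ^ e * evp x' v' w' A)) =
        u () * (u () * evp (u () • x) (u () • v) (u () • w) A - u () ^ e * evp x v w A) := by
    intro S _ _ x v w u
    rw [map_mul, map_sub, map_mul, map_mul, map_pow, evp_map, evp_map, hx', hv', hw', hu']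
    simp only [aeval_X, Sum.elim_inl, Sum.elim_inr, Pi.smul_apply, smul_eq_mul, map_mul]
    rfl
  have key := transfer (u := fun _ : Unit => c) hξ hv hw hi
    (u' () * (u' () * evp (u' () • x') (u' () • v') (u' () • w') A - u' () ^ e * evp x' v' w' A)) (by
      intro x hx _ v hv w hw u
      have h1 := gen x v w u
      rw [aeval_eq_eval] at h1
      rw [h1]
      rcases eq_or_ne (u ()) 0 with h0 | h0
      · rw [h0, zero_mul]
      · rw [← hA x hx v hv w hw, ← hA _ (cone_smulC hP hx h0) _ (conTan_smulC hP hv _) _ (conTan_smulC hP hw _),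
          ← hsc x hx v hv w hw _ h0, Pi.smul_apply, smul_eq_mul]
        ring)
  rw [gen] at key
  exact sub_eq_zero.1 ((mul_eq_zero.1 key).resolve_left hc)

/-- the polynomial of a section has integral values at integral points -/
private theorem evp_integral (ord : AddValuation K (WithTop ℤ)) (hc : ∀ c : ℂ, 0 ≤ ord (algebraMap ℂ K c))
    (hξ : ∀ k, 0 ≤ ord (ξ k)) (hv : ∀ k, 0 ≤ ord (v k)) (hw : ∀ k, 0 ≤ ord (w k)) : 0 ≤ ord (evp ξ v w A) := by
  obtain ⟨O, hO⟩ : ∃ O : Subalgebra ℂ K, ∀ a, a ∈ O ↔ 0 ≤ ord a := by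
    refine ⟨{ carrier := {a | 0 ≤ ord a}, mul_mem' := ?_, add_mem' := ?_, algebraMap_mem' := hc }, fun a => Iff.rfl⟩
    · intro a b ha hb
      have ha' : 0 ≤ ord a := ha
      have hb' : 0 ≤ ord b := hb
      show 0 ≤ ord (a * b)
      rw [ord.map_mul]
      exact add_nonneg ha' hb'
    · intro a b ha hb
      exact le_trans (le_min ha hb) (ord.map_add a b)
  have h1 := evp_map O.val (fun k => (⟨ξ k, (hO _).2 (hξ k)⟩ : O)) (fun k => (⟨v k, (hO _).2 (hv k)⟩ : O))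
    (fun k => (⟨w k, (hO _).2 (hw k)⟩ : O)) A
  have h2 : evp ξ v w A = O.val (evp (fun k => (⟨ξ k, (hO _).2 (hξ k)⟩ : O)) (fun k => (⟨v k, (hO _).2 (hv k)⟩ : O))
      (fun k => (⟨w k, (hO _).2 (hw k)⟩ : O)) A) := h1.symm
  rw [h2, ← hO]
  exact Subtype.property _

end aux

/-- the value at a `K`-point -/
def BSec.val {m : ℕ} (Ω : BSec P m) (i : Fin (N + 1)) (ξ v w : Fin (N + 1) → K) : K :=
  eval (pl v w) (map (aeval ξ).toRingHom (Ω.regular i).choose_spec.choose) / ξ i ^ (Ω.regular i).choose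

theorem BSec.val_eq {m : ℕ} (Ω : BSec P m) (i : Fin (N + 1)) (ξ v w : Fin (N + 1) → K) :
    Ω.val i ξ v w = evp ξ v w (Ω.regular i).choose_spec.choose / ξ i ^ (Ω.regular i).choose := rfl

theorem BSec.rep {m : ℕ} (Ω : BSec P m) (i : Fin (N + 1)) : Rep P Ω.toFun i (Ω.regular i).choose (Ω.regular i).choose_spec.choose := by
  intro x hx v hv w hw
  rw [evp_complex]
  exact (Ω.regular i).choose_spec.choose_spec.2 x hx v hv w hw

theorem BSec.val_indep {m : ℕ} (Ω : BSec P m) {ξ v w : Fin (N + 1) → K} (hξ : ξ ∈ coneK P K) (hv : v ∈ conTanK P ξ) (hw : w ∈ conTanK P ξ)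
    {i j : Fin (N + 1)} (hi : ξ i ≠ 0) (hj : ξ j ≠ 0) : Ω.val i ξ v w = Ω.val j ξ v w := by
  rw [BSec.val_eq, BSec.val_eq, div_eq_div_iff (pow_ne_zero _ hi) (pow_ne_zero _ hj)]
  exact indep_aux (Ω.rep i) (Ω.rep j) hξ hv hw hi

theorem BSec.val_add_smul {m : ℕ} (Ω : BSec P m) (hP : Homog P) {ξ v w : Fin (N + 1) → K} (hξ : ξ ∈ coneK P K) (hv : v ∈ conTanK P ξ)
    (hw : w ∈ conTanK P ξ) {i : Fin (N + 1)} (hi : ξ i ≠ 0) (a b : K) : Ω.val i ξ (v + a • ξ) (w + b • ξ) = Ω.val i ξ v w := by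
  rw [BSec.val_eq, BSec.val_eq, add_aux hP (Ω.rep i) Ω.add_smul hξ hv hw hi]

theorem BSec.val_scale {m : ℕ} (Ω : BSec P m) (hP : Homog P) {ξ v w : Fin (N + 1) → K} (hξ : ξ ∈ coneK P K) (hv : v ∈ conTanK P ξ)
    (hw : w ∈ conTanK P ξ) {i : Fin (N + 1)} (hi : ξ i ≠ 0) {c : K} (hc : c ≠ 0) :
    c * Ω.val i (c • ξ) (c • v) (c • w) = Ω.val i ξ v w := by
  rw [BSec.val_eq, BSec.val_eq, ← mul_div_assoc, scale_aux hP (Ω.rep i) Ω.scale hξ hv hw hi hc, Pi.smul_apply, smul_eq_mul, mul_pow,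
    mul_div_mul_left _ _ (pow_ne_zero _ hc)]

/-- the values of the section on the derivatives of a `K`-point are integral for a valuation, up to the twist -/
theorem BSec.val_integral {m : ℕ} (Ω : BSec P m) (hP : Homog P) (ord : AddValuation K (WithTop ℤ)) (hc : ∀ c : ℂ, 0 ≤ ord (algebraMap ℂ K c))
    {ξ : Fin (N + 1) → K} (hξ : ξ ∈ coneK P K) {i j : Fin (N + 1)} (hi : ξ i ≠ 0) (hj : ξ j ≠ 0) (hmin : ∀ k, 0 ≤ ord (ξ k / ξ j))
    {D D' : Derivation ℂ K K} (hD : ∀ f, 0 ≤ ord f → 0 ≤ ord (D f)) (hD' : ∀ f, 0 ≤ ord f → 0 ≤ ord (D' f)) :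
    0 ≤ ord (ξ j * Ω.val i ξ (fun k => D (ξ k)) (fun k => D' (ξ k))) := by
  obtain ⟨η, hη⟩ : ∃ η : Fin (N + 1) → K, η = (ξ j)⁻¹ • ξ := ⟨_, rfl⟩
  have hcj : (ξ j)⁻¹ ≠ 0 := inv_ne_zero hj
  have hηk : ∀ k, η k = ξ k / ξ j := fun k => by
    rw [hη, Pi.smul_apply, smul_eq_mul]
    ring
  have hηc : η ∈ coneK P K := by
    rw [hη]
    exact coneK_smul hP hξ hcj
  have hηi : η i ≠ 0 := by
    rw [hηk]
    exact div_ne_zero hi hj
  have hηj : η j = 1 := by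
    rw [hηk]
    exact div_self hj
  have hder : ∀ E : Derivation ℂ K K, ((ξ j)⁻¹ • fun k => E (ξ k)) = (fun k => E (η k)) + (-(E (ξ j)⁻¹ * ξ j)) • η := by
    intro E
    funext k
    rw [Pi.add_apply, Pi.smul_apply, Pi.smul_apply, hη, Pi.smul_apply, smul_eq_mul, smul_eq_mul, smul_eq_mul, Derivation.leibniz,
      smul_eq_mul, smul_eq_mul]
    have : ξ j * (ξ j)⁻¹ = 1 := mul_inv_cancel₀ hj
    linear_combination (E (ξ j)⁻¹ * ξ k) * this
  have h1 := Ω.val_scale hP hξ (der_mem_conTanK hξ D) (der_mem_conTanK hξ D') hi hcj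
  rw [← hη, hder D, hder D', Ω.val_add_smul hP hηc (der_mem_conTanK hηc D) (der_mem_conTanK hηc D') hηi,
    Ω.val_indep hηc (der_mem_conTanK hηc D) (der_mem_conTanK hηc D') hηi (by rw [hηj]; exact one_ne_zero), BSec.val_eq, hηj,
    one_pow, div_one] at h1
  rw [← h1, ← mul_assoc, mul_inv_cancel₀ hj, one_mul]
  have hη0 : ∀ k, 0 ≤ ord (η k) := fun k => by
    rw [hηk]
    exact hmin k
  exact evp_integral ord hc hη0 (fun k => hD _ (hη0 k)) (fun k => hD' _ (hη0 k))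

/-! ### Restriction -/

theorem cone_anti {Q : Ideal (MvPolynomial (Fin (N + 1)) ℂ)} (h : P ≤ Q) {x : Fin (N + 1) → ℂ} (hx : x ∈ cone Q) : x ∈ cone P :=
  ⟨hx.1, fun R hR => hx.2 R (h hR)⟩

theorem conTan_anti {Q : Ideal (MvPolynomial (Fin (N + 1)) ℂ)} (h : P ≤ Q) {x v : Fin (N + 1) → ℂ} (hv : v ∈ conTan Q x) : v ∈ conTan P x :=
  fun R hR => hv R (h hR)

/-- the restriction of a section to a closed subvariety -/
def BSec.restrict {m : ℕ} {Q : Ideal (MvPolynomial (Fin (N + 1)) ℂ)} (h : P ≤ Q) (Ω : BSec P m) : BSec Q m where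
  toFun := Ω.toFun
  regular i := by
    obtain ⟨e, A, hA, h1⟩ := Ω.regular i
    exact ⟨e, A, hA, fun x hx v hv w hw => h1 x (cone_anti h hx) v (conTan_anti h hv) w (conTan_anti h hw)⟩
  add_smul x hx v hv w hw := Ω.add_smul x (cone_anti h hx) v (conTan_anti h hv) w (conTan_anti h hw)
  scale x hx v hv w hw := Ω.scale x (cone_anti h hx) v (conTan_anti h hv) w (conTan_anti h hw)

theorem Generates.restrict {m J : ℕ} {Q : Ideal (MvPolynomial (Fin (N + 1)) ℂ)} (h : P ≤ Q) {Ω : Fin J → BSec P m} (hΩ : Generates Ω) :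
    Generates fun k => (Ω k).restrict h := by
  intro x hx l l' hl
  obtain ⟨c, hc⟩ := hΩ x (cone_anti h hx) l l' hl
  exact ⟨c, fun v hv w hw => hc v (conTan_anti h hv) w (conTan_anti h hw)⟩

end Pool.Agent.AD.G
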